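import Mathlib

open UpperHalfPlane Real
open scoped UpperHalfPlane

namespace Pool.Agent.Lib.MP_80c3a1_pr

/-! ### Two functions on the hyperbolic plane: position along the axis and (log cosh of) height -/

/-- Position along the vertical axis. -/
noncomputable def tt (w : ℍ) : ℝ := Real.log ‖(w : ℂ)‖

/-- Logarithm of the hyperbolic cosine of the distance to the vertical axis. -/
noncomputable def HH (w : ℍ) : ℝ := Real.log (‖(w : ℂ)‖ / w.im)

lemma norm_pos' (w : ℍ) : 0 < ‖(w : ℂ)‖ := norm_pos_iff.2 w.ne_zero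

lemma im_le_norm (w : ℍ) : w.im ≤ ‖(w : ℂ)‖ := by
  have := Complex.abs_im_le_norm (w : ℂ)
  exact (le_abs_self _).trans this

lemma norm_sq' (w : ℍ) : ‖(w : ℂ)‖ ^ 2 = w.re ^ 2 + w.im ^ 2 := by
  rw [Complex.sq_norm, Complex.normSq_apply]
  simp only [coe_re, coe_im]
  ring

lemma exp_tt (w : ℍ) : Real.exp (tt w) = ‖(w : ℂ)‖ := Real.exp_log (norm_pos' w)

lemma exp_HH (w : ℍ) : Real.exp (HH w) = ‖(w : ℂ)‖ / w.im :=
  Real.exp_log (div_pos (norm_pos' w) w.im_pos)

lemma HH_nonneg (w : ℍ) : 0 ≤ HH w := by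
  apply Real.log_nonneg
  rw [le_div_iff₀ w.im_pos, one_mul]
  exact im_le_norm w

/-- Key lower bound for the hyperbolic cosine of the distance. -/
lemma cosh_dist_ge (w w' : ℍ) :
    1 + Real.exp (HH w) * Real.exp (HH w') * (Real.cosh (tt w - tt w') - 1) ≤
      Real.cosh (dist w w') := by
  rw [UpperHalfPlane.cosh_dist']
  have h1 := norm_sq' w
  have h2 := norm_sq' w'
  have n1 := norm_pos' w
  have n2 := norm_pos' w'
  have i1 := w.im_pos
  have i2 := w'.im_pos
  have hcosh : Real.cosh (tt w - tt w') =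
      (‖(w : ℂ)‖ ^ 2 + ‖(w' : ℂ)‖ ^ 2) / (2 * ‖(w : ℂ)‖ * ‖(w' : ℂ)‖) := by
    rw [Real.cosh_eq, Real.exp_sub, neg_sub, Real.exp_sub, exp_tt, exp_tt]
    field_simp
  rw [hcosh, exp_HH, exp_HH]
  set a := ‖(w : ℂ)‖
  set b := ‖(w' : ℂ)‖
  set x := w.re
  set y := w.im
  set x' := w'.re
  set y' := w'.im
  have key : x * x' + y * y' ≤ a * b := by
    have h3 : (x * x' + y * y') ^ 2 ≤ (a * b) ^ 2 := by
      rw [mul_pow, h1, h2]
      nlinarith [sq_nonneg (x * y' - y * x')]
    exact le_of_sq_le_sq h3 (by positivity) 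
  have e : 1 + a / y * (b / y') * ((a ^ 2 + b ^ 2) / (2 * a * b) - 1) =
      (2 * y * y' + (a ^ 2 + b ^ 2 - 2 * a * b)) / (2 * y * y') := by
    field_simp
  rw [e, div_le_div_iff_of_pos_right (by positivity)]
  nlinarith

/-- The distance to the base point `i`. -/
lemma cosh_dist_I (w : ℍ) :
    Real.cosh (dist w I) = Real.exp (HH w) * Real.cosh (tt w) := by
  rw [UpperHalfPlane.cosh_dist', Real.cosh_eq (tt w), Real.exp_neg, exp_tt, exp_HH]
  have h1 := norm_sq' w
  have n1 := norm_pos' w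
  have i1 := w.im_pos
  simp only [I_re, I_im]
  field_simp
  nlinarith

lemma cosh_sub_le_cosh_dist (w w' : ℍ) : Real.cosh (tt w - tt w') ≤ Real.cosh (dist w w') := by
  refine le_trans ?_ (cosh_dist_ge w w')
  have h1 : 1 ≤ Real.exp (HH w) := Real.one_le_exp (HH_nonneg w)
  have h2 : 1 ≤ Real.exp (HH w') := Real.one_le_exp (HH_nonneg w')
  have h3 : 0 ≤ Real.cosh (tt w - tt w') - 1 := by linarith [Real.one_le_cosh (tt w - tt w')]
  have h4 : 1 ≤ Real.exp (HH w) * Real.exp (HH w') := one_le_mul_of_one_le_of_one_le h1 h2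
  nlinarith

/-- `tt` is 1-Lipschitz. -/
lemma abs_tt_sub_le (w w' : ℍ) : |tt w - tt w'| ≤ dist w w' := by
  have h := cosh_sub_le_cosh_dist w w'
  rw [Real.cosh_le_cosh] at h
  rwa [abs_of_nonneg (dist_nonneg (x := w) (y := w'))] at h

/-- `HH` is 2-Lipschitz. -/
lemma abs_HH_sub_le (w w' : ℍ) : |HH w - HH w'| ≤ 2 * dist w w' := by
  have h1 := abs_tt_sub_le w w'
  have h2 := UpperHalfPlane.dist_log_im_le w w'
  rw [Real.dist_eq] at h2
  have e : HH w - HH w' = (tt w - tt w') - (Real.log w.im - Real.log w'.im) := by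
    unfold HH tt
    rw [Real.log_div (norm_pos' w).ne' w.im_pos.ne', Real.log_div (norm_pos' w').ne' w'.im_pos.ne']
    ring
  rw [e]
  calc |(tt w - tt w') - (Real.log w.im - Real.log w'.im)|
      ≤ |tt w - tt w'| + |Real.log w.im - Real.log w'.im| := abs_sub _ _
    _ ≤ 2 * dist w w' := by linarith

lemma abs_tt_le (w : ℍ) : |tt w| ≤ dist w I := by
  have := abs_tt_sub_le w I
  have h : tt I = 0 := by unfold tt; simp
  rwa [h, sub_zero] at this

lemma HH_le (w : ℍ) : HH w ≤ dist w I := by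
  have h1 := cosh_dist_I w
  have h2 : Real.exp (HH w) ≤ Real.exp (dist w I) := by
    calc Real.exp (HH w) ≤ Real.exp (HH w) * Real.cosh (tt w) :=
          le_mul_of_one_le_right (Real.exp_pos _).le (Real.one_le_cosh _)
      _ = Real.cosh (dist w I) := h1.symm
      _ ≤ Real.exp (dist w I) := by
          rw [Real.cosh_eq]
          have : Real.exp (-dist w I) ≤ Real.exp (dist w I) :=
            Real.exp_le_exp.2 (by linarith [dist_nonneg (x := w) (y := I)])
          linarith
  exact Real.exp_le_exp.1 h2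

lemma dist_I_le (w : ℍ) : dist w I ≤ HH w + |tt w| + 1 := by
  have h1 := cosh_dist_I w
  have h2 : Real.exp (dist w I) ≤ 2 * Real.cosh (dist w I) := by
    rw [Real.cosh_eq]; linarith [Real.exp_pos (-dist w I)]
  have h3 : Real.cosh (tt w) ≤ Real.exp |tt w| := by
    rw [← Real.cosh_abs, Real.cosh_eq]
    have : Real.exp (-|tt w|) ≤ Real.exp |tt w| := Real.exp_le_exp.2 (by linarith [abs_nonneg (tt w)])
    linarith
  have h4 : (2 : ℝ) ≤ Real.exp 1 := by
    have := Real.add_one_le_exp (1 : ℝ); linarith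
  have h5 : Real.exp (dist w I) ≤ Real.exp (HH w + |tt w| + 1) := by
    rw [Real.exp_add, Real.exp_add]
    calc Real.exp (dist w I) ≤ 2 * (Real.exp (HH w) * Real.cosh (tt w)) := by rw [← h1]; exact h2
      _ ≤ Real.exp 1 * (Real.exp (HH w) * Real.exp |tt w|) := by gcongr
      _ = _ := by ring
  exact Real.exp_le_exp.1 h5

lemma sq_div_two_le_cosh_sub_one (x : ℝ) : x ^ 2 / 2 ≤ Real.cosh x - 1 := by
  have h1 : Real.cosh x = 1 + 2 * Real.sinh (x / 2) ^ 2 := by
    have : x = 2 * (x / 2) := by ring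
    rw [this, Real.cosh_two_mul, Real.cosh_sq]
    ring_nf
  have h2 : |x / 2| ≤ Real.sinh |x / 2| := Real.self_le_sinh_iff.2 (abs_nonneg _)
  have h3 : (x / 2) ^ 2 ≤ Real.sinh (x / 2) ^ 2 := by
    have : Real.sinh |x / 2| = |Real.sinh (x / 2)| := (Real.abs_sinh _).symm
    rw [this] at h2
    exact sq_le_sq.2 h2
  rw [h1]; nlinarith

/-- Steps in the `tt` direction are exponentially small high above the axis. -/
lemma abs_tt_sub_le_exp (w w' : ℍ) :
    |tt w - tt w'| ≤ 2 * Real.exp (3 / 2 * dist w w' - HH w) := by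
  have h1 := cosh_dist_ge w w'
  have h2 : Real.cosh (dist w w') ≤ Real.exp (dist w w') := by
    rw [Real.cosh_eq]
    have : Real.exp (-dist w w') ≤ Real.exp (dist w w') :=
      Real.exp_le_exp.2 (by linarith [dist_nonneg (x := w) (y := w')])
    linarith
  have h3 : (tt w - tt w') ^ 2 / 2 ≤ Real.cosh (tt w - tt w') - 1 :=
    sq_div_two_le_cosh_sub_one _
  have h4 : HH w - 2 * dist w w' ≤ HH w' := by
    have := (abs_le.1 (abs_HH_sub_le w w')).2
    linarith
  have h5 : Real.exp (HH w) * Real.exp (HH w - 2 * dist w w') ≤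
      Real.exp (HH w) * Real.exp (HH w') := by gcongr
  have h6 : Real.exp (HH w) * Real.exp (HH w - 2 * dist w w') * ((tt w - tt w') ^ 2 / 2) ≤
      Real.exp (dist w w') := by
    have a1 : 0 ≤ (tt w - tt w') ^ 2 / 2 := by positivity
    have a2 : Real.exp (HH w) * Real.exp (HH w - 2 * dist w w') * ((tt w - tt w') ^ 2 / 2) ≤
        Real.exp (HH w) * Real.exp (HH w') * (Real.cosh (tt w - tt w') - 1) := by
      have a3 : 0 ≤ Real.exp (HH w) * Real.exp (HH w') := by positivity
      exact mul_le_mul h5 h3 a1 a3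
    linarith
  have h7 : (tt w - tt w') ^ 2 ≤ (2 * Real.exp (3 / 2 * dist w w' - HH w)) ^ 2 := by
    have e1 : (2 * Real.exp (3 / 2 * dist w w' - HH w)) ^ 2 =
        4 * Real.exp (3 * dist w w' - 2 * HH w) := by
      rw [mul_pow, ← Real.exp_nat_mul]
      norm_num
      ring
    have e2 : Real.exp (HH w) * Real.exp (HH w - 2 * dist w w') =
        Real.exp (2 * HH w - 2 * dist w w') := by
      rw [← Real.exp_add]; ring_nf
    rw [e2] at h6
    rw [e1]
    have h8 : (tt w - tt w') ^ 2 ≤ 2 * Real.exp (dist w w') / Real.exp (2 * HH w - 2 * dist w w') := by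
      rw [le_div_iff₀ (Real.exp_pos _)]
      linarith
    have e3 : 2 * Real.exp (dist w w') / Real.exp (2 * HH w - 2 * dist w w') =
        2 * Real.exp (3 * dist w w' - 2 * HH w) := by
      rw [mul_div_assoc, ← Real.exp_sub]; ring_nf
    rw [e3] at h8
    linarith [Real.exp_pos (3 * dist w w' - 2 * HH w)]
  exact abs_le_of_sq_le_sq h7 (by positivity)

/-! ### Chains of unit steps towards the base point -/

/-- A chain of `n` steps of length at most one from `w` to `w'` inside the closed ball of radius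
`R` about the base point. -/
def HasChain (R : ℝ) (n : ℕ) (w w' : ℍ) : Prop :=
  ∃ z : ℕ → ℍ, z 0 = w ∧ z n = w' ∧ (∀ i < n, dist (z i) (z (i + 1)) ≤ 1) ∧
    ∀ i ≤ n, dist (z i) I ≤ R

lemma HasChain.trans {R : ℝ} {n m : ℕ} {w w' w'' : ℍ} (h1 : HasChain R n w w')
    (h2 : HasChain R m w' w'') : HasChain R (n + m) w w'' := by
  obtain ⟨z, z0, zn, zd, zR⟩ := h1
  obtain ⟨y, y0, ym, yd, yR⟩ := h2
  refine ⟨fun i ↦ if i < n then z i else y (i - n), ?_, ?_, ?_, ?_⟩
  · dsimp only
    split_ifs with h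
    · exact z0
    · have : n = 0 := by omega
      subst this
      rw [y0, ← zn, z0]
  · dsimp only
    rw [if_neg (by omega)]
    simpa using ym
  · intro i hi
    dsimp only
    by_cases h1 : i + 1 < n
    · rw [if_pos (by omega), if_pos h1]
      exact zd i (by omega)
    · by_cases h2 : i < n
      · rw [if_pos h2, if_neg h1]
        have h3 : i + 1 = n := by omega
        have h4 : i + 1 - n = 0 := by omega
        rw [h4, y0, ← zn, ← h3]
        exact zd i h2
      · rw [if_neg h2, if_neg h1, show i + 1 - n = (i - n) + 1 by omega]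
        exact yd (i - n) (by omega)
  · intro i hi
    dsimp only
    split_ifs with h
    · exact zR i h.le
    · exact yR (i - n) (by omega)

lemma hasChain_of_lipschitz {R : ℝ} (c : ℝ → ℍ) (hc : ∀ a b, dist (c a) (c b) ≤ |a - b|)
    (x y : ℝ) (hR : ∀ a ∈ Set.uIcc x y, dist (c a) I ≤ R) :
    HasChain R ⌈|x - y|⌉₊ (c x) (c y) := by
  set n := ⌈|x - y|⌉₊ with hn
  have hle : |x - y| ≤ n := Nat.le_ceil _
  refine ⟨fun i ↦ c (x + (y - x) * (i / n)), by simp, ?_, ?_, ?_⟩
  · by_cases h0 : n = 0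
    · have : |x - y| ≤ 0 := by rw [h0] at hle; simpa using hle
      have hxy : x = y := by
        have := abs_nonpos_iff.1 this
        linarith
      simp [h0, hxy]
    · have : (n : ℝ) ≠ 0 := by exact_mod_cast h0
      dsimp only
      rw [div_self this]; ring_nf
  · intro i hi
    have h0 : 0 < n := by omega
    have h0' : (0 : ℝ) < n := by exact_mod_cast h0
    refine (hc _ _).trans ?_
    have e : x + (y - x) * (i / n) - (x + (y - x) * (((i + 1 : ℕ) : ℝ) / n)) = (x - y) / n := by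
      push_cast
      field_simp
      ring
    rw [e, abs_div, abs_of_pos h0', div_le_one h0']
    exact hle
  · intro i hi
    apply hR
    by_cases h0 : n = 0
    · have : i = 0 := by omega
      simp [this]
    have h0' : (0 : ℝ) < n := by exact_mod_cast Nat.pos_of_ne_zero h0
    have h1 : (0 : ℝ) ≤ i / n := by positivity
    have h2 : (i : ℝ) / n ≤ 1 := by
      rw [div_le_one h0']; exact_mod_cast hi
    rw [Set.mem_uIcc]
    rcases le_total x y with h | h
    · left; constructor <;> nlinarith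
    · right; constructor <;> nlinarith

/-- The point with Fermi coordinates `(t, h)` with respect to the vertical axis. -/
noncomputable def fermi (t h : ℝ) : ℍ :=
  ⟨⟨Real.exp t * (Real.sinh h / Real.cosh h), Real.exp t / Real.cosh h⟩, by
    change 0 < Real.exp t / Real.cosh h
    have := Real.cosh_pos h
    positivity⟩

lemma fermi_re (t h : ℝ) : (fermi t h).re = Real.exp t * (Real.sinh h / Real.cosh h) := rfl
lemma fermi_im (t h : ℝ) : (fermi t h).im = Real.exp t / Real.cosh h := rfl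

lemma fermi_norm (t h : ℝ) : ‖(fermi t h : ℂ)‖ = Real.exp t := by
  have h1 := norm_sq' (fermi t h)
  rw [fermi_re, fermi_im] at h1
  have h2 := Real.cosh_pos h
  have h3 := Real.cosh_sq h
  have h4 : (Real.exp t * (Real.sinh h / Real.cosh h)) ^ 2 + (Real.exp t / Real.cosh h) ^ 2 =
      Real.exp t ^ 2 := by
    field_simp
    nlinarith
  rw [h4] at h1
  exact (sq_eq_sq₀ (norm_nonneg _) (Real.exp_pos _).le).1 h1

lemma tt_fermi (t h : ℝ) : tt (fermi t h) = t := by
  unfold tt; rw [fermi_norm, Real.log_exp]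

lemma exp_HH_fermi (t h : ℝ) : Real.exp (HH (fermi t h)) = Real.cosh h := by
  rw [exp_HH, fermi_norm, fermi_im]
  have h2 := Real.cosh_pos h
  have := Real.exp_pos t
  field_simp

lemma dist_fermi (t h h' : ℝ) : dist (fermi t h) (fermi t h') = |h - h'| := by
  have h1 : Real.cosh (dist (fermi t h) (fermi t h')) = Real.cosh |h - h'| := by
    rw [UpperHalfPlane.cosh_dist', fermi_re, fermi_re, fermi_im, fermi_im, Real.cosh_abs,
      Real.cosh_sub]
    have a1 := Real.cosh_pos h
    have a2 := Real.cosh_pos h'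
    have a3 := Real.exp_pos t
    have a4 := Real.cosh_sq h
    have a5 := Real.cosh_sq h'
    field_simp
    ring_nf
    nlinarith
  have h2 : |dist (fermi t h) (fermi t h')| = |(|h - h'|)| := by
    apply le_antisymm
    · exact Real.cosh_le_cosh.1 h1.le
    · exact Real.cosh_le_cosh.1 h1.ge
  rwa [abs_of_nonneg dist_nonneg, abs_abs] at h2

lemma dist_fermi_zero (t t' : ℝ) : dist (fermi t 0) (fermi t' 0) = |t - t'| := by
  rw [UpperHalfPlane.dist_of_re_eq (by rw [fermi_re, fermi_re]; simp), fermi_im, fermi_im]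
  simp [Real.dist_eq]

lemma fermi_zero_zero : fermi 0 0 = I := by
  apply UpperHalfPlane.ext_re_im
  · rw [fermi_re]; simp
  · rw [fermi_im]; simp

lemma exists_fermi (w : ℍ) : ∃ h : ℝ, w = fermi (tt w) h := by
  refine ⟨Real.arsinh (w.re / w.im), ?_⟩
  have h1 := norm_sq' w
  have n1 := norm_pos' w
  have i1 := w.im_pos
  have hc : Real.cosh (Real.arsinh (w.re / w.im)) = ‖(w : ℂ)‖ / w.im := by
    rw [Real.cosh_arsinh, div_pow]
    have : 1 + w.re ^ 2 / w.im ^ 2 = (‖(w : ℂ)‖ / w.im) ^ 2 := by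
      rw [div_pow, h1]; field_simp; ring
    rw [this, Real.sqrt_sq (by positivity)]
  apply UpperHalfPlane.ext_re_im
  · rw [fermi_re, exp_tt, hc, Real.sinh_arsinh]
    field_simp
  · rw [fermi_im, exp_tt, hc]
    field_simp

lemma cosh_dist_fermi_I (t h : ℝ) : Real.cosh (dist (fermi t h) I) = Real.cosh h * Real.cosh t := by
  rw [cosh_dist_I, exp_HH_fermi, tt_fermi]

lemma dist_fermi_I_mono {t h t' h' : ℝ} (ht : |t'| ≤ |t|) (hh : |h'| ≤ |h|) :
    dist (fermi t' h') I ≤ dist (fermi t h) I := by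
  have h1 : Real.cosh (dist (fermi t' h') I) ≤ Real.cosh (dist (fermi t h) I) := by
    rw [cosh_dist_fermi_I, cosh_dist_fermi_I]
    have a1 := Real.cosh_le_cosh.2 ht
    have a2 := Real.cosh_le_cosh.2 hh
    have a3 := Real.cosh_pos t'
    have a4 := Real.cosh_pos h
    gcongr
  have h2 := Real.cosh_le_cosh.1 h1
  rwa [abs_of_nonneg dist_nonneg, abs_of_nonneg dist_nonneg] at h2

/-- From every point there is a short chain of unit steps to the base point. -/
lemma exists_chain (w : ℍ) : ∃ n : ℕ, (n : ℝ) ≤ 2 * dist w I + 2 ∧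
    HasChain (dist w I) n w I := by
  obtain ⟨h, hw⟩ := exists_fermi w
  set t := tt w with ht
  have c1 : HasChain (dist w I) ⌈|h - 0|⌉₊ (fermi t h) (fermi t 0) := by
    apply hasChain_of_lipschitz (fun a ↦ fermi t a) (fun a b ↦ (dist_fermi t a b).le)
    intro a ha
    rw [hw]
    apply dist_fermi_I_mono (le_refl _)
    rw [Set.mem_uIcc] at ha
    rcases ha with ha | ha
    · rw [abs_of_nonpos ha.2, abs_of_nonpos (ha.1.trans ha.2)]; linarith [ha.1]
    · rw [abs_of_nonneg ha.1, abs_of_nonneg (ha.1.trans ha.2)]; exact ha.2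
  have c2 : HasChain (dist w I) ⌈|t - 0|⌉₊ (fermi t 0) (fermi 0 0) := by
    apply hasChain_of_lipschitz (fun a ↦ fermi a 0) (fun a b ↦ (dist_fermi_zero a b).le)
    intro a ha
    rw [hw]
    apply dist_fermi_I_mono _ (by simp)
    rw [Set.mem_uIcc] at ha
    rcases ha with ha | ha
    · rw [abs_of_nonpos ha.2, abs_of_nonpos (ha.1.trans ha.2)]; linarith [ha.1]
    · rw [abs_of_nonneg ha.1, abs_of_nonneg (ha.1.trans ha.2)]; exact ha.2
  have c := c1.trans c2
  rw [fermi_zero_zero, ← hw, sub_zero, sub_zero] at c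
  refine ⟨_, ?_, c⟩
  have b1 : |t| ≤ dist w I := abs_tt_le w
  have b2 : |h| ≤ dist w I := by
    have h1 := cosh_dist_fermi_I t h
    rw [← hw] at h1
    have h2 : Real.cosh h ≤ Real.cosh (dist w I) := by
      rw [h1]
      exact le_mul_of_one_le_right (Real.cosh_pos _).le (Real.one_le_cosh _)
    have h3 := Real.cosh_le_cosh.1 h2
    rwa [abs_of_nonneg (dist_nonneg (x := w) (y := I))] at h3
  have b3 := Nat.ceil_lt_add_one (abs_nonneg h)
  have b4 := Nat.ceil_lt_add_one (abs_nonneg t)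
  push_cast
  linarith

end Pool.Agent.Lib.MP_80c3a1_pr
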