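import Mathlib
import Pool.Agent.Lib.MP_80c3a1_pr.HypGeom

open MeasureTheory UpperHalfPlane Real
open scoped ENNReal UpperHalfPlane

namespace Pool.Agent.Lib.MP_80c3a1_pr

lemma volume_reProdIm (s t : Set ℝ) : (volume : Measure ℂ) (s ×ℂ t) = volume s * volume t := by
  have h := Complex.volume_preserving_equiv_real_prod
  have h2 : (s ×ℂ t : Set ℂ) = Complex.measurableEquivRealProd ⁻¹' (s ×ˢ t) := by
    ext z
    simp [Complex.mem_reProdIm]
  rw [h2, h.measure_preimage_equiv, Measure.volume_eq_prod, Measure.prod_prod]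

lemma area_lower (c : ℍ) {s : ℝ} (hs : 2 ≤ Real.cosh s) (hs0 : 0 ≤ s) :
    ENNReal.ofReal ((Real.cosh s - 1) / 2) ≤ volume (Metric.closedBall c s) := by
  set τ : ℝ := 1 / (Real.cosh s - 1) with hτ
  have hτ0 : 0 < τ := by rw [hτ]; apply one_div_pos.2; linarith
  have hτ1 : τ ≤ 1 := by rw [hτ, div_le_one (by linarith)]; linarith
  have hy := c.im_pos
  set R : Set ℂ := Set.Icc (c.re - c.im) (c.re + c.im) ×ℂ Set.Icc (τ * c.im) (2 * τ * c.im) with hR
  have hRm : MeasurableSet R := by
    rw [hR, Complex.reProdIm]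
    exact (Complex.measurable_re measurableSet_Icc).inter (Complex.measurable_im measurableSet_Icc)
  have hsub : R ⊆ UpperHalfPlane.coe '' Metric.closedBall c s := by
    intro w hw
    rw [hR, Complex.mem_reProdIm, Set.mem_Icc, Set.mem_Icc] at hw
    obtain ⟨⟨h1, h2⟩, h3, h4⟩ := hw
    have him : 0 < w.im := lt_of_lt_of_le (mul_pos hτ0 hy) h3
    refine ⟨⟨w, him⟩, ?_, rfl⟩
    rw [Metric.mem_closedBall]
    have hch : Real.cosh (dist (⟨w, him⟩ : ℍ) c) ≤ Real.cosh s := by
      rw [UpperHalfPlane.cosh_dist]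
      have e1 : dist ((⟨w, him⟩ : ℍ) : ℂ) c ^ 2 = (w.re - c.re) ^ 2 + (w.im - c.im) ^ 2 := by
        rw [Complex.dist_eq, ← Complex.normSq_eq_norm_sq, Complex.normSq_apply]
        simp
        ring
      rw [e1]
      have e2 : (w.re - c.re) ^ 2 ≤ c.im ^ 2 := by
        apply sq_le_sq'
        · linarith
        · linarith
      have e3 : (w.im - c.im) ^ 2 ≤ c.im ^ 2 := by
        apply sq_le_sq'
        · linarith
        · nlinarith
      have e4 : (0 : ℝ) < 2 * w.im * c.im := by positivity
      have e5 : ((w.re - c.re) ^ 2 + (w.im - c.im) ^ 2) / (2 * w.im * c.im) ≤ 1 / τ := by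
        rw [div_le_div_iff₀ e4 hτ0]
        nlinarith
      have e6 : 1 / τ = Real.cosh s - 1 := by rw [hτ, one_div_one_div]
      change 1 + _ / (2 * w.im * c.im) ≤ _
      linarith
    rw [Real.cosh_le_cosh, abs_of_nonneg dist_nonneg, abs_of_nonneg hs0] at hch
    exact hch
  rw [volume_eq_lintegral]
  calc ENNReal.ofReal ((Real.cosh s - 1) / 2)
      = ENNReal.ofReal (1 / (2 * τ * c.im) ^ 2) * volume R := by
        rw [hR, volume_reProdIm, Real.volume_Icc, Real.volume_Icc, ← ENNReal.ofReal_mul (by linarith),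
          ← ENNReal.ofReal_mul (by positivity)]
        congr 1
        have : Real.cosh s - 1 ≠ 0 := by linarith
        rw [hτ]
        field_simp
        ring
    _ = ∫⁻ _z : ℂ in R, ENNReal.ofReal (1 / (2 * τ * c.im) ^ 2) := by
        rw [setLIntegral_const]
    _ ≤ ∫⁻ z : ℂ in R, ↑((1 / ‖z.im‖₊) ^ 2 : NNReal) := by
        apply setLIntegral_mono' hRm
        intro z hz
        rw [hR, Complex.mem_reProdIm, Set.mem_Icc, Set.mem_Icc] at hz
        obtain ⟨-, h3, h4⟩ := hz
        have him : 0 < z.im := lt_of_lt_of_le (mul_pos hτ0 hy) h3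
        rw [ENNReal.ofReal, ENNReal.coe_le_coe, ← NNReal.coe_le_coe, Real.coe_toNNReal _ (by positivity)]
        push_cast
        rw [Real.norm_of_nonneg him.le, div_pow, one_pow]
        gcongr
    _ ≤ _ := lintegral_mono_set hsub

lemma area_upper (c : ℍ) {s : ℝ} (hs0 : 0 ≤ s) :
    volume (Metric.closedBall c s) ≤ ENNReal.ofReal (Real.exp (4 * s)) := by
  have hy := c.im_pos
  rw [volume_eq_lintegral, image_coe_closedBall]
  have hm : MeasurableSet (Metric.closedBall (↑(c.center s) : ℂ) (c.im * Real.sinh s)) :=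
    Metric.isClosed_closedBall.measurableSet
  calc ∫⁻ z : ℂ in Metric.closedBall (↑(c.center s) : ℂ) (c.im * Real.sinh s),
        ↑((1 / ‖z.im‖₊) ^ 2 : NNReal)
      ≤ ∫⁻ _z : ℂ in Metric.closedBall (↑(c.center s) : ℂ) (c.im * Real.sinh s),
        ENNReal.ofReal (1 / (c.im * Real.exp (-s)) ^ 2) := by
        apply setLIntegral_mono' hm
        intro z hz
        rw [Metric.mem_closedBall, Complex.dist_eq] at hz
        have h1 : |(z - ↑(c.center s)).im| ≤ c.im * Real.sinh s :=
          (Complex.abs_im_le_norm _).trans hz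
        rw [Complex.sub_im, UpperHalfPlane.coe_im, center_im] at h1
        have h2 := (abs_le.1 h1).1
        have h3 : c.im * Real.exp (-s) ≤ z.im := by
          have : Real.exp (-s) = Real.cosh s - Real.sinh s := (Real.cosh_sub_sinh s).symm
          rw [this]
          linarith
        have h4 : 0 < c.im * Real.exp (-s) := by positivity
        have h5 : 0 < z.im := lt_of_lt_of_le h4 h3
        rw [ENNReal.ofReal, ENNReal.coe_le_coe, ← NNReal.coe_le_coe, Real.coe_toNNReal _ (by positivity)]
        push_cast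
        rw [Real.norm_of_nonneg h5.le, div_pow, one_pow]
        gcongr
    _ = ENNReal.ofReal (1 / (c.im * Real.exp (-s)) ^ 2) *
        volume (Metric.closedBall (↑(c.center s) : ℂ) (c.im * Real.sinh s)) := by
        rw [setLIntegral_const]
    _ ≤ ENNReal.ofReal (Real.exp (4 * s)) := by
        rw [Complex.volume_closedBall]
        have hsh : 0 ≤ Real.sinh s := Real.sinh_nonneg_iff.2 hs0
        have h1 : (NNReal.pi : ℝ≥0∞) = ENNReal.ofReal π := by
          rw [← NNReal.coe_real_pi, ENNReal.ofReal_coe_nnreal]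
        rw [h1, ← ENNReal.ofReal_pow (by positivity), ← ENNReal.ofReal_mul (by positivity),
          ← ENNReal.ofReal_mul (by positivity)]
        apply ENNReal.ofReal_le_ofReal
        have h2 : Real.sinh s ≤ Real.exp s / 2 := by
          rw [Real.sinh_eq]
          linarith [Real.exp_pos (-s)]
        have h3 : Real.exp (-s) = 1 / Real.exp s := by rw [Real.exp_neg, one_div]
        have h4 : Real.exp (4 * s) = Real.exp s ^ 4 := by
          rw [← Real.exp_nat_mul]; norm_num
        have h5 : Real.sinh s ^ 2 ≤ (Real.exp s / 2) ^ 2 := by gcongr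
        have h6 := Real.exp_pos s
        rw [h3, h4]
        have h7 : 1 / (c.im * (1 / Real.exp s)) ^ 2 * ((c.im * Real.sinh s) ^ 2 * π) =
            Real.exp s ^ 2 * Real.sinh s ^ 2 * π := by
          field_simp
        rw [h7]
        calc Real.exp s ^ 2 * Real.sinh s ^ 2 * π ≤ Real.exp s ^ 2 * (Real.exp s / 2) ^ 2 * 4 := by
              gcongr
              exact Real.pi_le_four
          _ = Real.exp s ^ 4 := by ring

end Pool.Agent.Lib.MP_80c3a1_pr
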