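import Mathlib

open MeasureTheory ProbabilityTheory
open scoped ENNReal

namespace Pool.Agent.Lib.MP_80c3a1_pr

/-- The open unit disc of the complex plane. -/
abbrev Disc : Type := {z : ℂ // ‖z‖ < 1}

/-- The hyperbolic distance of the Poincare disc model (curvature `-1`). -/
noncomputable def hdist (z w : Disc) : ℝ :=
  2 * Real.arsinh (‖(z : ℂ) - w‖ / √((1 - ‖(z : ℂ)‖ ^ 2) * (1 - ‖(w : ℂ)‖ ^ 2)))

/-- The hyperbolic area of the Poincare disc model (curvature `-1`): the measure with density
`4 / (1 - |z|^2)^2` with respect to planar Lebesgue measure on the disc. -/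
noncomputable def harea : Measure Disc :=
  (Measure.comap Subtype.val (volume : Measure ℂ)).withDensity
    fun z ↦ ENNReal.ofReal (4 / (1 - ‖(z : ℂ)‖ ^ 2) ^ 2)

/-- A Poisson point process with intensity measure `μ`, seen as a random set of points: the number
of points in each measurable set is a random variable, it is Poisson distributed with parameter
`μ A` when `μ A` is finite, and the numbers of points in finitely many pairwise disjoint
measurable sets are independent. -/
structure IsPoissonProcess {Ω X : Type*} [MeasurableSpace Ω] [MeasurableSpace X] (P : Measure Ω)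
    (μ : Measure X) (S : Ω → Set X) : Prop where
  measurable_count : ∀ A : Set X, MeasurableSet A → Measurable fun ω ↦ (S ω ∩ A).encard
  poisson : ∀ A : Set X, MeasurableSet A → μ A ≠ ∞ → ∀ k : ℕ,
    P {ω | (S ω ∩ A).encard = k} =
      ENNReal.ofReal (Real.exp (-(μ A).toReal) * (μ A).toReal ^ k / k.factorial)
  indep : ∀ (n : ℕ) (A : Fin n → Set X), (∀ i, MeasurableSet (A i)) →
    Pairwise (Function.onFun Disjoint A) → iIndepFun (fun i ω ↦ (S ω ∩ A i).encard) P

/-- The Voronoi cell of the nucleus `x` in the tessellation generated by `S`. -/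
def voronoiCell (S : Set Disc) (x : Disc) : Set Disc := {z | ∀ y ∈ S, hdist z x ≤ hdist z y}

/-- The hyperbolic geodesic segment with endpoints `p` and `q`. -/
def hsegment (p q : Disc) : Set Disc := {z | hdist p z + hdist z q = hdist p q}

/-- The dual graph of the Voronoi tessellation generated by `S`. Its vertices are the nuclei (that
is, the cells), two of them being adjacent when their cells share a segment of positive length. -/
def voronoiGraph (S : Set Disc) : SimpleGraph S where
  Adj x y := x ≠ y ∧ ∃ p q : Disc, p ≠ q ∧ hsegment p q ⊆ voronoiCell S x ∩ voronoiCell S y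
  symm := ⟨fun _ _ ⟨hne, p, q, hpq, h⟩ ↦ ⟨hne.symm, p, q, hpq, fun _ hz ↦ ⟨(h hz).2, (h hz).1⟩⟩⟩
  loopless := ⟨fun _ h ↦ h.1 rfl⟩

/-- The largest distance to the cell of `o` among all shortest paths from a cell containing `p` to
a cell containing `q`. The distance of a path to the cell of `o` is the smallest graph distance
of a vertex of the path to that cell. -/
noncomputable def deviation (S : Set Disc) (p q o : Disc) : ℕ∞ :=
  ⨆ (x : S) (y : S) (c : S) (_ : p ∈ voronoiCell S x) (_ : q ∈ voronoiCell S y)
    (_ : o ∈ voronoiCell S c) (γ : (voronoiGraph S).Walk x y)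
    (_ : γ.length = (voronoiGraph S).dist x y),
    ⨅ v ∈ γ.support, (voronoiGraph S).edist v c

/-- The random variable `D_r`: the largest distance to the cell of `0` among all shortest paths
from the cell of `-r` to the cell of `r`. -/
noncomputable def Dev (S : Set Disc) (r : Set.Ico (0 : ℝ) 1) : ℕ∞ :=
  deviation S
    ⟨-((r : ℝ) : ℂ), by rw [norm_neg, Complex.norm_real, Real.norm_of_nonneg r.2.1]; exact r.2.2⟩
    ⟨((r : ℝ) : ℂ), by rw [Complex.norm_real, Real.norm_of_nonneg r.2.1]; exact r.2.2⟩
    ⟨0, by rw [norm_zero]; exact zero_lt_one⟩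

end Pool.Agent.Lib.MP_80c3a1_pr
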