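import Mathlib
import Pool.Agent.Lib.MP_80c3a1_pr.HypGeom

open UpperHalfPlane Real Filter
open scoped UpperHalfPlane Topology

namespace Pool.Agent.Lib.MP_80c3a1_pr

/-! ### Convexity of hyperbolic half planes -/

/-- Algebraic core: an isotropic vector orthogonal to a timelike vector vanishes. -/
lemma lorentz_zero {m0 m1 m2 v0 v1 v2 : ℝ} (hm0 : 0 < m0) (hm : m0 * m2 - m1 ^ 2 = 1)
    (h1 : v0 * v2 - v1 ^ 2 = 0) (h2 : (v0 * m2 + v2 * m0) / 2 - v1 * m1 = 0) :
    v0 = 0 ∧ v1 = 0 ∧ v2 = 0 := by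
  have hm2 : 0 < m2 := by
    by_contra h
    push Not at h
    nlinarith [sq_nonneg m1]
  have h3 : v0 * m2 + v2 * m0 = 2 * (v1 * m1) := by linarith
  have h4 : (v0 * m2 - v2 * m0) ^ 2 = -4 * v1 ^ 2 := by
    have e1 : (v0 * m2 - v2 * m0) ^ 2 = (v0 * m2 + v2 * m0) ^ 2 - 4 * (v0 * v2) * (m0 * m2) := by
      ring
    rw [e1, h3, show v0 * v2 = v1 ^ 2 by linarith, show m0 * m2 = m1 ^ 2 + 1 by linarith]
    ring
  have hv1 : v1 = 0 := by
    have : v1 ^ 2 ≤ 0 := by nlinarith [sq_nonneg (v0 * m2 - v2 * m0)]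
    exact pow_eq_zero_iff (two_ne_zero) |>.1 (le_antisymm this (sq_nonneg _))
  rw [hv1] at h3 h4 h1
  have h5 : v0 * m2 - v2 * m0 = 0 := by
    have : (v0 * m2 - v2 * m0) ^ 2 = 0 := by rw [h4]; ring
    exact pow_eq_zero_iff (two_ne_zero) |>.1 this
  have h6 : v0 * m2 = 0 := by linarith
  have h7 : v2 * m0 = 0 := by linarith
  refine ⟨?_, hv1, ?_⟩
  · rcases mul_eq_zero.1 h6 with h | h
    · exact h
    · exact absurd h hm2.ne'
  · rcases mul_eq_zero.1 h7 with h | h
    · exact h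
    · exact absurd h hm0.ne'

lemma cosh_dist_form (z w : ℍ) : Real.cosh (dist z w) =
    ((1 / z.im) * (‖(w : ℂ)‖ ^ 2 / w.im) + (‖(z : ℂ)‖ ^ 2 / z.im) * (1 / w.im)) / 2 -
      (z.re / z.im) * (w.re / w.im) := by
  rw [UpperHalfPlane.cosh_dist', norm_sq', norm_sq']
  have i1 := z.im_pos
  have i2 := w.im_pos
  field_simp
  ring

/-- Hyperbolic Stewart identity. -/
lemma stewart {p q m : ℍ} (h : dist p m + dist m q = dist p q) (a : ℍ) :
    Real.sinh (dist p q) * Real.cosh (dist m a) =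
      Real.sinh (dist m q) * Real.cosh (dist p a) + Real.sinh (dist p m) * Real.cosh (dist q a) := by
  set A := dist p m
  set B := dist m q
  set C := dist p q
  have hC : C = A + B := h.symm
  -- the vector
  set sa := Real.sinh A
  set sb := Real.sinh B
  set sc := Real.sinh C
  have hpm := cosh_dist_form p m
  have hmq := cosh_dist_form m q
  have hpq := cosh_dist_form p q
  have hpp := cosh_dist_form p p
  have hqq := cosh_dist_form q q
  have hmm := cosh_dist_form m m
  rw [dist_self, Real.cosh_zero] at hpp hqq hmm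
  change Real.cosh A = _ at hpm
  change Real.cosh B = _ at hmq
  change Real.cosh C = _ at hpq
  generalize hp0 : (1 / p.im) = p0 at *
  generalize hp1 : (p.re / p.im) = p1 at *
  generalize hp2 : (‖(p : ℂ)‖ ^ 2 / p.im) = p2 at *
  generalize hq0 : (1 / q.im) = q0 at *
  generalize hq1 : (q.re / q.im) = q1 at *
  generalize hq2 : (‖(q : ℂ)‖ ^ 2 / q.im) = q2 at *
  generalize hm0 : (1 / m.im) = m0 at *
  generalize hm1 : (m.re / m.im) = m1 at *
  generalize hm2 : (‖(m : ℂ)‖ ^ 2 / m.im) = m2 at *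
  have hm0pos : 0 < m0 := by rw [← hm0]; have := m.im_pos; positivity
  have s1 : sc = sa * Real.cosh B + Real.cosh A * sb := by
    change Real.sinh C = _
    rw [hC, Real.sinh_add]
  have s2 : Real.cosh C = Real.cosh A * Real.cosh B + sa * sb := by
    rw [hC, Real.cosh_add]
  have s3 : Real.cosh A ^ 2 = sa ^ 2 + 1 := Real.cosh_sq A
  have s4 : Real.cosh B ^ 2 = sb ^ 2 + 1 := Real.cosh_sq B
  have key := lorentz_zero (m0 := m0) (m1 := m1) (m2 := m2)
    (v0 := sb * p0 + sa * q0 - sc * m0) (v1 := sb * p1 + sa * q1 - sc * m1)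
    (v2 := sb * p2 + sa * q2 - sc * m2) hm0pos (by linarith) ?_ ?_
  · obtain ⟨k0, k1, k2⟩ := key
    rw [cosh_dist_form m a, cosh_dist_form p a, cosh_dist_form q a, hp0, hp1, hp2, hq0, hq1, hq2,
      hm0, hm1, hm2]
    linear_combination (-(‖(a : ℂ)‖ ^ 2 / a.im) / 2) * k0 + (a.re / a.im) * k1 -
      (1 / a.im) / 2 * k2
  · -- norm zero
    have e : (sb * p0 + sa * q0 - sc * m0) * (sb * p2 + sa * q2 - sc * m2) -
        (sb * p1 + sa * q1 - sc * m1) ^ 2 =
        sb ^ 2 * ((p0 * p2 + p2 * p0) / 2 - p1 * p1) + sa ^ 2 * ((q0 * q2 + q2 * q0) / 2 - q1 * q1) +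
        sc ^ 2 * ((m0 * m2 + m2 * m0) / 2 - m1 * m1) +
        2 * sa * sb * ((p0 * q2 + p2 * q0) / 2 - p1 * q1) -
        2 * sb * sc * ((p0 * m2 + p2 * m0) / 2 - p1 * m1) -
        2 * sa * sc * ((m0 * q2 + m2 * q0) / 2 - m1 * q1) := by ring
    rw [e, ← hpp, ← hqq, ← hmm, ← hpq, ← hpm, ← hmq, s2, s1]
    linear_combination (-sa ^ 2) * s4 + (-sb ^ 2) * s3
  · have e : ((sb * p0 + sa * q0 - sc * m0) * m2 + (sb * p2 + sa * q2 - sc * m2) * m0) / 2 -
        (sb * p1 + sa * q1 - sc * m1) * m1 =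
        sb * ((p0 * m2 + p2 * m0) / 2 - p1 * m1) + sa * ((m0 * q2 + m2 * q0) / 2 - m1 * q1) -
        sc * ((m0 * m2 + m2 * m0) / 2 - m1 * m1) := by ring
    rw [e, ← hpm, ← hmq, ← hmm, s1]
    ring

/-- Hyperbolic half planes are convex. -/
lemma halfplane_convex {p q m a b : ℍ} (h : dist p m + dist m q = dist p q)
    (hp : dist p a ≤ dist p b) (hq : dist q a ≤ dist q b) : dist m a ≤ dist m b := by
  rcases eq_or_lt_of_le (dist_nonneg (x := p) (y := q)) with h0 | h0
  · have h1 : dist p m = 0 := by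
      have a1 := dist_nonneg (x := p) (y := m)
      have a2 := dist_nonneg (x := m) (y := q)
      linarith
    rw [← dist_eq_zero.1 h1]; exact hp
  · have ha := stewart h a
    have hb := stewart h b
    have s0 : 0 < Real.sinh (dist p q) := Real.sinh_pos_iff.2 h0
    have s1 : 0 ≤ Real.sinh (dist m q) := Real.sinh_nonneg_iff.2 dist_nonneg
    have s2 : 0 ≤ Real.sinh (dist p m) := Real.sinh_nonneg_iff.2 dist_nonneg
    have cp : Real.cosh (dist p a) ≤ Real.cosh (dist p b) := by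
      rw [Real.cosh_le_cosh, abs_of_nonneg dist_nonneg, abs_of_nonneg dist_nonneg]; exact hp
    have cq : Real.cosh (dist q a) ≤ Real.cosh (dist q b) := by
      rw [Real.cosh_le_cosh, abs_of_nonneg dist_nonneg, abs_of_nonneg dist_nonneg]; exact hq
    have : Real.sinh (dist p q) * Real.cosh (dist m a) ≤
        Real.sinh (dist p q) * Real.cosh (dist m b) := by
      rw [ha, hb]; gcongr
    have hm := le_of_mul_le_mul_left this s0
    rwa [Real.cosh_le_cosh, abs_of_nonneg dist_nonneg, abs_of_nonneg dist_nonneg] at hm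

/-! ### Voronoi cells and the dual graph, for a family of nuclei in the upper half plane -/

section Graph

variable {V : Type*}

/-- Voronoi cell of the nucleus with index `v`. -/
def cellP (pos : V → ℍ) (v : V) : Set ℍ := {z | ∀ u, dist z (pos v) ≤ dist z (pos u)}

/-- The dual graph: two cells are adjacent if they share a nondegenerate geodesic segment. -/
def VG (pos : V → ℍ) : SimpleGraph V where
  Adj u v := u ≠ v ∧ ∃ p q : ℍ, p ≠ q ∧
    {m | dist p m + dist m q = dist p q} ⊆ cellP pos u ∩ cellP pos v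
  symm := ⟨fun u v ⟨h, p, q, hpq, hs⟩ ↦ ⟨h.symm, p, q, hpq, by rwa [Set.inter_comm]⟩⟩
  loopless := ⟨fun u h ↦ h.1 rfl⟩

variable {pos : V → ℍ}

lemma isClosed_cellP (v : V) : IsClosed (cellP pos v) := by
  have : cellP pos v = ⋂ u, {z | dist z (pos v) ≤ dist z (pos u)} := by
    ext z; simp [cellP]
  rw [this]
  exact isClosed_iInter fun u ↦ isClosed_le (by fun_prop) (by fun_prop)

lemma adj_of_two_points {u v : V} (huv : u ≠ v) {p q : ℍ} (hpq : p ≠ q)
    (hp : p ∈ cellP pos u ∩ cellP pos v) (hq : q ∈ cellP pos u ∩ cellP pos v) :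
    (VG pos).Adj u v := by
  refine ⟨huv, p, q, hpq, fun m hm ↦ ⟨fun w ↦ ?_, fun w ↦ ?_⟩⟩
  · exact halfplane_convex hm (hp.1 w) (hq.1 w)
  · exact halfplane_convex hm (hp.2 w) (hq.2 w)

lemma exists_mem_of_adj {u v : V} (h : (VG pos).Adj u v) :
    ∃ z, z ∈ cellP pos u ∩ cellP pos v := by
  obtain ⟨_, p, q, _, hs⟩ := h
  exact ⟨p, hs (by simp)⟩

/-- Local finiteness of the set of nuclei. -/
def LocFin (pos : V → ℍ) : Prop := ∀ (z : ℍ) (R : ℝ), {v | dist (pos v) z ≤ R}.Finite

lemma exists_mem_cellP [Nonempty V] (hfin : LocFin pos) (z : ℍ) : ∃ v, z ∈ cellP pos v := by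
  obtain ⟨v0⟩ := ‹Nonempty V›
  obtain ⟨v, hv, hmin⟩ := (hfin z (dist (pos v0) z)).exists_minimalFor (fun v ↦ dist (pos v) z) _
    ⟨v0, show dist (pos v0) z ≤ dist (pos v0) z from le_rfl⟩
  refine ⟨v, fun u ↦ ?_⟩
  rw [dist_comm z, dist_comm z]
  by_cases hu : dist (pos u) z ≤ dist (pos v0) z
  · rcases le_total (dist (pos u) z) (dist (pos v) z) with h | h
    · exact hmin hu h
    · exact h
  · push Not at hu
    exact le_trans hv hu.le

/-- Open nonempty subsets of the upper half plane are infinite. -/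
lemma infinite_of_isOpen {U : Set ℍ} (hU : IsOpen U) (hne : U.Nonempty) : U.Infinite := by
  obtain ⟨x, hx⟩ := hne
  have h1 : IsOpen (UpperHalfPlane.coe '' U) :=
    UpperHalfPlane.isOpenEmbedding_coe.isOpenMap U hU
  have h2 : UpperHalfPlane.coe '' U ∈ 𝓝 (x : ℂ) := h1.mem_nhds ⟨x, hx, rfl⟩
  have h3 : (UpperHalfPlane.coe '' U).Infinite := infinite_of_mem_nhds _ h2
  exact Set.Infinite.of_image _ h3

lemma cellP_mem_nhds (hfin : LocFin pos) (v : V) : cellP pos v ∈ 𝓝 (pos v) := by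
  have h1 : ∀ᶠ z in 𝓝 (pos v), ∀ u ∈ {u | dist (pos u) (pos v) ≤ 2},
      dist z (pos v) ≤ dist z (pos u) := by
    rw [Filter.eventually_all_finite (hfin (pos v) 2)]
    intro u _
    by_cases h : pos u = pos v
    · exact Eventually.of_forall fun z ↦ by rw [h]
    · have h2 : 0 < dist (pos v) (pos u) := dist_pos.2 (Ne.symm h)
      have h3 : ∀ᶠ z in 𝓝 (pos v), dist z (pos v) < dist z (pos u) := by
        apply (isOpen_lt (f := fun z ↦ dist z (pos v)) (g := fun z ↦ dist z (pos u))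
          (by fun_prop) (by fun_prop)).mem_nhds
        change dist (pos v) (pos v) < dist (pos v) (pos u)
        rw [dist_self]; exact h2
      exact h3.mono fun z hz ↦ hz.le
  have h4 : ∀ᶠ z in 𝓝 (pos v), dist z (pos v) < 1 := by
    have := Metric.ball_mem_nhds (pos v) one_pos
    exact this
  filter_upwards [h1, h4] with z hz1 hz2 u
  by_cases hu : dist (pos u) (pos v) ≤ 2
  · exact hz1 u hu
  · push Not at hu
    have := dist_triangle (pos u) z (pos v)
    rw [dist_comm (pos u) z] at this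
    linarith

/-- A hyperbolic ball minus a finite set is preconnected. -/
lemma isPreconnected_ball_diff (c : ℍ) {r : ℝ} (hr : 0 < r) {N : Set ℍ} (hN : N.Finite) :
    IsPreconnected (Metric.ball c r \ N) := by
  rw [← UpperHalfPlane.isOpenEmbedding_coe.toIsInducing.isPreconnected_image,
    Set.image_sdiff UpperHalfPlane.coe_injective, UpperHalfPlane.image_coe_ball]
  set x : ℂ := ↑(c.center r)
  set s : ℝ := c.im * Real.sinh r
  have hs : 0 < s := mul_pos c.im_pos (Real.sinh_pos_iff.2 hr)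
  set M : Set ℂ := UpperHalfPlane.coe '' N
  have hM : M.Countable := (hN.image _).countable
  set φ := OpenPartialHomeomorph.univBall x s
  have hφc : Continuous φ := OpenPartialHomeomorph.continuous_univBall x s
  have hsrc : φ.source = Set.univ := OpenPartialHomeomorph.univBall_source x s
  have htgt : φ.target = Metric.ball x s := OpenPartialHomeomorph.univBall_target x hs
  have hinj : Set.InjOn φ Set.univ := hsrc ▸ φ.injOn
  have hpre : (φ ⁻¹' M).Countable :=
    hM.preimage (Set.injOn_univ.1 hinj)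
  have hconn := (hpre.isConnected_compl_of_one_lt_rank (by
    rw [Complex.rank_real_complex]; norm_num)).isPreconnected
  have himg : Metric.ball x s \ M = φ '' (φ ⁻¹' M)ᶜ := by
    ext z
    constructor
    · rintro ⟨hz1, hz2⟩
      rw [← htgt] at hz1
      refine ⟨φ.symm z, ?_, φ.right_inv hz1⟩
      simp only [Set.mem_compl_iff, Set.mem_preimage, φ.right_inv hz1]
      exact hz2
    · rintro ⟨y, hy, rfl⟩
      refine ⟨?_, hy⟩
      rw [← htgt]
      exact φ.map_source (by rw [hsrc]; trivial)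
  rw [himg]
  exact hconn.image _ hφc.continuousOn

/-- Local connectivity of the dual graph inside a ball. -/
lemma reachable_ball [Nonempty V] (hfin : LocFin pos) {T : Set V} (hT : T.Finite) {c : ℍ} {r : ℝ}
    (hr : 0 < r) (hTc : ∀ v, (cellP pos v ∩ Metric.ball c r).Nonempty → v ∈ T) {u v : T}
    (hu : (cellP pos u ∩ Metric.ball c r).Infinite) (hv : (cellP pos v ∩ Metric.ball c r).Infinite) :
    ((VG pos).induce T).Reachable u v := by
  classical
  by_contra hnot
  have : Finite T := hT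
  set B := Metric.ball c r
  let 𝒜 : Set T := {a | (cellP pos a ∩ B).Infinite ∧ ((VG pos).induce T).Reachable u a}
  let ℬ : Set T := {b | (cellP pos b ∩ B).Infinite ∧ ¬ ((VG pos).induce T).Reachable u b}
  let F : Set ℍ := ⋃ t ∈ {t : T | (cellP pos t ∩ B).Finite}, cellP pos t ∩ B
  have hF : F.Finite := Set.Finite.biUnion (Set.toFinite _) fun t ht ↦ ht
  let J : Set ℍ := ⋃ a ∈ 𝒜, ⋃ b ∈ ℬ, cellP pos a ∩ cellP pos b
  have hJ : J.Finite := by
    refine Set.Finite.biUnion (Set.toFinite _) fun a ha ↦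
      Set.Finite.biUnion (Set.toFinite _) fun b hb ↦ ?_
    apply Set.Subsingleton.finite
    intro p hp q hq
    by_contra hpq
    have hab : (a : V) ≠ b := by
      intro h
      have : a = b := Subtype.ext h
      subst this
      exact hb.2 ha.2
    have hadj : (VG pos).Adj a b := adj_of_two_points hab hpq hp hq
    apply hb.2
    refine ha.2.trans (SimpleGraph.Adj.reachable ?_)
    exact hadj
  have hN : (F ∪ J).Finite := hF.union hJ
  have hpre := isPreconnected_ball_diff c hr hN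
  rw [isPreconnected_closed_iff] at hpre
  have hA : IsClosed (⋃ a ∈ 𝒜, cellP pos (a : V)) :=
    Set.Finite.isClosed_biUnion (Set.toFinite _) fun a _ ↦ isClosed_cellP _
  have hB : IsClosed (⋃ b ∈ ℬ, cellP pos (b : V)) :=
    Set.Finite.isClosed_biUnion (Set.toFinite _) fun b _ ↦ isClosed_cellP _
  have hcov : B \ (F ∪ J) ⊆ (⋃ a ∈ 𝒜, cellP pos (a : V)) ∪ (⋃ b ∈ ℬ, cellP pos (b : V)) := by
    rintro z ⟨hzB, hzN⟩
    obtain ⟨t, ht⟩ := exists_mem_cellP hfin z
    have htT : t ∈ T := hTc t ⟨z, ht, hzB⟩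
    by_cases hinf : (cellP pos t ∩ B).Infinite
    · by_cases hreach : ((VG pos).induce T).Reachable u ⟨t, htT⟩
      · left
        exact Set.mem_biUnion (x := (⟨t, htT⟩ : T)) ⟨hinf, hreach⟩ ht
      · right
        exact Set.mem_biUnion (x := (⟨t, htT⟩ : T)) ⟨hinf, hreach⟩ ht
    · exfalso
      apply hzN
      left
      rw [Set.not_infinite] at hinf
      exact Set.mem_biUnion (x := (⟨t, htT⟩ : T)) hinf ⟨ht, hzB⟩
  have hnA : (B \ (F ∪ J) ∩ (⋃ a ∈ 𝒜, cellP pos (a : V))).Nonempty := by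
    obtain ⟨z, hz, hzN⟩ := (hu.sdiff hN).nonempty
    exact ⟨z, ⟨hz.2, hzN⟩, Set.mem_biUnion (x := u) ⟨hu, SimpleGraph.Reachable.refl _⟩ hz.1⟩
  have hnB : (B \ (F ∪ J) ∩ (⋃ b ∈ ℬ, cellP pos (b : V))).Nonempty := by
    obtain ⟨z, hz, hzN⟩ := (hv.sdiff hN).nonempty
    exact ⟨z, ⟨hz.2, hzN⟩, Set.mem_biUnion (x := v) ⟨hv, hnot⟩ hz.1⟩
  obtain ⟨z, ⟨_, hzN⟩, hzA, hzB⟩ := hpre _ _ hA hB hcov hnA hnB
  apply hzN
  right
  obtain ⟨a, ha, hza⟩ := Set.mem_iUnion₂.1 hzA
  obtain ⟨b, hb, hzb⟩ := Set.mem_iUnion₂.1 hzB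
  exact Set.mem_biUnion ha (Set.mem_biUnion hb ⟨hza, hzb⟩)

/-- Connectivity of the dual graph along a chain of balls. -/
lemma reachable_chain [Nonempty V] (hfin : LocFin pos) {T : Set V} (hT : T.Finite) {z : ℕ → ℍ}
    (n : ℕ) (hz : ∀ i < n, dist (z i) (z (i + 1)) ≤ 1)
    (hTc : ∀ i ≤ n, ∀ v, (cellP pos v ∩ Metric.ball (z i) 2).Nonempty → v ∈ T) {u : T}
    (hu : (cellP pos u ∩ Metric.ball (z 0) 2).Infinite) :
    ∀ v : T, (cellP pos v ∩ Metric.ball (z n) 2).Infinite →
      ((VG pos).induce T).Reachable u v := by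
  induction n with
  | zero =>
    intro v hv
    exact reachable_ball hfin hT two_pos (hTc 0 le_rfl) hu hv
  | succ n ih =>
    intro v hv
    have ih' := ih (fun i hi ↦ hz i (by omega)) (fun i hi ↦ hTc i (by omega))
    -- a common cell
    obtain ⟨t, ht⟩ : ∃ t : T, (cellP pos t ∩
        (Metric.ball (z n) 2 ∩ Metric.ball (z (n + 1)) 2)).Infinite := by
      by_contra hcon
      push Not at hcon
      have hO : IsOpen (Metric.ball (z n) 2 ∩ Metric.ball (z (n + 1)) 2) :=
        Metric.isOpen_ball.inter Metric.isOpen_ball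
      have hne : (Metric.ball (z n) 2 ∩ Metric.ball (z (n + 1)) 2).Nonempty :=
        ⟨z n, Metric.mem_ball_self two_pos, by
          rw [Metric.mem_ball]; linarith [hz n (Nat.lt_succ_self n)]⟩
      apply infinite_of_isOpen hO hne
      have : Finite T := hT
      refine Set.Finite.subset (Set.finite_iUnion fun t : T ↦ hcon t) ?_
      intro x hx
      obtain ⟨t, ht⟩ := exists_mem_cellP hfin x
      exact Set.mem_iUnion.2 ⟨⟨t, hTc n (Nat.le_succ n) t ⟨x, ht, hx.1⟩⟩, ht, hx⟩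
    have h1 : (cellP pos t ∩ Metric.ball (z n) 2).Infinite :=
      ht.mono fun x hx ↦ ⟨hx.1, hx.2.1⟩
    have h2 : (cellP pos t ∩ Metric.ball (z (n + 1)) 2).Infinite :=
      ht.mono fun x hx ↦ ⟨hx.1, hx.2.2⟩
    exact (ih' t h1).trans (reachable_ball hfin hT two_pos (hTc (n + 1) le_rfl) h2 hv)

lemma reachable_and_dist_lt {G : SimpleGraph V} {T : Set V} (hT : T.Finite) {u v : T}
    (h : (G.induce T).Reachable u v) : G.Reachable u v ∧ G.dist u v < T.ncard := by
  classical
  have : Fintype T := hT.fintype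
  obtain ⟨p, hp⟩ := h.exists_isPath
  have hlen := hp.length_lt
  let q : G.Walk u v := p.map (SimpleGraph.Embedding.induce T).toHom
  have hq : q.length = p.length := SimpleGraph.Walk.length_map _ _
  refine ⟨q.reachable, ?_⟩
  calc G.dist u v ≤ q.length := SimpleGraph.dist_le q
    _ = p.length := hq
    _ < Fintype.card T := hlen
    _ = T.ncard := by rw [Set.ncard_eq_toFinset_card', Set.toFinset_card]

lemma infinite_cellP_ball (hfin : LocFin pos) (v : V) {c : ℍ} {r : ℝ}
    (h : pos v ∈ Metric.ball c r) : (cellP pos v ∩ Metric.ball c r).Infinite := by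
  have h1 : cellP pos v ∩ Metric.ball c r ∈ 𝓝 (pos v) :=
    inter_mem (cellP_mem_nhds hfin v) (Metric.isOpen_ball.mem_nhds h)
  obtain ⟨U, hU1, hU2, hU3⟩ := mem_nhds_iff.1 h1
  exact (infinite_of_isOpen hU2 ⟨_, hU3⟩).mono hU1

end Graph

end Pool.Agent.Lib.MP_80c3a1_pr
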