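import Mathlib
import Pool.Agent.Lib.MP_80c3a1_pr.Voronoi

open UpperHalfPlane Real Filter
open scoped UpperHalfPlane Topology

namespace Pool.Agent.Lib.MP_80c3a1_pr

variable {V : Type*} {pos : V → ℍ}

/-- The scale attached to a point. -/
noncomputable def mm (ρ : ℝ) (y : ℍ) : ℝ := max ρ (dist y I)

/-- The regularity event, at scale `ρ`: every point has a nucleus nearby, and there are not too
many nuclei around any point. -/
structure Regular (pos : V → ℍ) (ρ : ℝ) : Prop where
  locFin : LocFin pos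
  near : ∀ y : ℍ, ∃ v, dist y (pos v) ≤ mm ρ y / 1000
  few : ∀ y : ℍ, ({v | dist (pos v) y ≤ 2 + (mm ρ y + 2) / 1000}.ncard : ℝ) ≤
    Real.exp (mm ρ y / 10)

lemma mm_le_add (ρ : ℝ) (y z : ℍ) : mm ρ y ≤ mm ρ z + dist y z := by
  unfold mm
  apply max_le
  · exact (le_max_left ρ _).trans (le_add_of_nonneg_right dist_nonneg)
  · have := dist_triangle y z I
    have h2 := le_max_right ρ (dist z I)
    linarith

lemma Regular.nonempty {ρ : ℝ} (h : Regular pos ρ) : Nonempty V := by
  obtain ⟨v, _⟩ := h.near I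
  exact ⟨v⟩

lemma Regular.dist_le {ρ : ℝ} (h : Regular pos ρ) {y : ℍ} {v : V} (hy : y ∈ cellP pos v) :
    dist y (pos v) ≤ mm ρ y / 1000 := by
  obtain ⟨u, hu⟩ := h.near y
  exact (hy u).trans hu

/-- Adjacent nuclei are close. -/
lemma Regular.jump {ρ : ℝ} (h : Regular pos ρ) {u v : V} (huv : (VG pos).Adj u v) :
    dist (pos u) (pos v) ≤ mm ρ (pos u) / 250 := by
  obtain ⟨z, hzu, hzv⟩ := exists_mem_of_adj huv
  have h1 := h.dist_le hzu
  have h2 : dist z (pos v) ≤ dist z (pos u) := hzv u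
  have h3 := mm_le_add ρ z (pos u)
  have h4 : dist (pos u) (pos v) ≤ dist z (pos u) + dist z (pos v) := by
    have := dist_triangle (pos u) z (pos v)
    rwa [dist_comm (pos u) z] at this
  have h5 : 0 ≤ mm ρ (pos u) := dist_nonneg.trans (le_max_right ρ (dist (pos u) I))
  linarith

/-- Upper bound for graph distances. -/
lemma Regular.two_point {ρ R : ℝ} (h : Regular pos ρ) (hρ : 0 ≤ ρ) (hR : ρ ≤ R) {u v : V}
    (hu : dist (pos u) I ≤ R) (hv : dist (pos v) I ≤ R) :
    (VG pos).Reachable u v ∧ ((VG pos).dist u v : ℝ) < (4 * R + 6) * Real.exp (R / 10) := by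
  classical
  have hne := h.nonempty
  obtain ⟨n, hn, z, hz0, hzn, hzd, hzR⟩ := exists_chain (pos u)
  obtain ⟨n', hn', z', hz0', hzn', hzd', hzR'⟩ := exists_chain (pos v)
  let S : ℍ → Set V := fun y ↦ {w | (cellP pos w ∩ Metric.ball y 2).Nonempty}
  have hS : ∀ y, S y ⊆ {w | dist (pos w) y ≤ 2 + (mm ρ y + 2) / 1000} := by
    rintro y w ⟨x, hxw, hxy⟩
    have h1 := h.dist_le hxw
    have h2 := mm_le_add ρ x y
    have h3 : dist x y < 2 := hxy
    have h4 := dist_triangle (pos w) x y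
    rw [dist_comm (pos w) x] at h4
    change dist (pos w) y ≤ 2 + (mm ρ y + 2) / 1000
    linarith
  have hSfin : ∀ y, (S y).Finite := fun y ↦ (h.locFin y _).subset (hS y)
  have hScard : ∀ y, dist y I ≤ R → ((S y).ncard : ℝ) ≤ Real.exp (R / 10) := by
    intro y hy
    have h1 : (S y).ncard ≤ {w | dist (pos w) y ≤ 2 + (mm ρ y + 2) / 1000}.ncard :=
      Set.ncard_le_ncard (hS y) (h.locFin y _)
    have h2 : mm ρ y ≤ R := max_le hR hy
    calc ((S y).ncard : ℝ) ≤ _ := by exact_mod_cast h1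
      _ ≤ Real.exp (mm ρ y / 10) := h.few y
      _ ≤ Real.exp (R / 10) := by gcongr
  let T : Set V := (⋃ i ∈ Finset.range (n + 1), S (z i)) ∪ ⋃ i ∈ Finset.range (n' + 1), S (z' i)
  have hTfin : T.Finite := by
    apply Set.Finite.union
    · exact Set.Finite.biUnion (Finset.finite_toSet _) fun i _ ↦ hSfin _
    · exact Set.Finite.biUnion (Finset.finite_toSet _) fun i _ ↦ hSfin _
  have hT1 : ∀ i ≤ n, ∀ w, (cellP pos w ∩ Metric.ball (z i) 2).Nonempty → w ∈ T := fun i hi w hw ↦
    Or.inl (Set.mem_biUnion (Finset.mem_coe.2 (Finset.mem_range.2 (by omega))) hw)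
  have hT2 : ∀ i ≤ n', ∀ w, (cellP pos w ∩ Metric.ball (z' i) 2).Nonempty → w ∈ T :=
    fun i hi w hw ↦ Or.inr (Set.mem_biUnion (Finset.mem_coe.2 (Finset.mem_range.2 (by omega))) hw)
  have huinf : (cellP pos u ∩ Metric.ball (z 0) 2).Infinite := by
    rw [hz0]; exact infinite_cellP_ball h.locFin u (Metric.mem_ball_self two_pos)
  have hvinf : (cellP pos v ∩ Metric.ball (z' 0) 2).Infinite := by
    rw [hz0']; exact infinite_cellP_ball h.locFin v (Metric.mem_ball_self two_pos)
  have huT : u ∈ T := hT1 0 (Nat.zero_le _) u huinf.nonempty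
  have hvT : v ∈ T := hT2 0 (Nat.zero_le _) v hvinf.nonempty
  -- a common cell around the base point
  obtain ⟨t, ht⟩ : ∃ t : T, (cellP pos t ∩ Metric.ball I 2).Infinite := by
    by_contra hcon
    push Not at hcon
    apply infinite_of_isOpen (Metric.isOpen_ball (x := I) (ε := 2))
      ⟨I, Metric.mem_ball_self two_pos⟩
    have : Finite T := hTfin
    refine Set.Finite.subset (Set.finite_iUnion fun t : T ↦ hcon t) ?_
    intro x hx
    obtain ⟨t, ht⟩ := exists_mem_cellP h.locFin x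
    refine Set.mem_iUnion.2 ⟨⟨t, hT1 n le_rfl t ?_⟩, ht, hx⟩
    rw [hzn]
    exact ⟨x, ht, hx⟩
  have r1 := reachable_chain h.locFin hTfin n hzd hT1 (u := ⟨u, huT⟩) huinf t (by rwa [hzn])
  have r2 := reachable_chain h.locFin hTfin n' hzd' hT2 (u := ⟨v, hvT⟩) hvinf t (by rwa [hzn'])
  obtain ⟨hreach, hdist⟩ := reachable_and_dist_lt hTfin (r1.trans r2.symm)
  refine ⟨hreach, ?_⟩
  have hcard : (T.ncard : ℝ) ≤ (4 * R + 6) * Real.exp (R / 10) := by
    have c1 : (((⋃ i ∈ Finset.range (n + 1), S (z i)).ncard : ℕ) : ℝ) ≤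
        (n + 1) * Real.exp (R / 10) := by
      have := Finset.set_ncard_biUnion_le (Finset.range (n + 1)) (fun i ↦ S (z i))
      calc (((⋃ i ∈ Finset.range (n + 1), S (z i)).ncard : ℕ) : ℝ) ≤
          ((∑ i ∈ Finset.range (n + 1), (S (z i)).ncard : ℕ) : ℝ) := by exact_mod_cast this
        _ = ∑ i ∈ Finset.range (n + 1), ((S (z i)).ncard : ℝ) := by push_cast; rfl
        _ ≤ ∑ _i ∈ Finset.range (n + 1), Real.exp (R / 10) :=
            Finset.sum_le_sum fun i hi ↦ hScard _
              ((hzR i (by have := Finset.mem_range.1 hi; omega)).trans hu)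
        _ = _ := by rw [Finset.sum_const, Finset.card_range, nsmul_eq_mul]; push_cast; rfl
    have c2 : (((⋃ i ∈ Finset.range (n' + 1), S (z' i)).ncard : ℕ) : ℝ) ≤
        (n' + 1) * Real.exp (R / 10) := by
      have := Finset.set_ncard_biUnion_le (Finset.range (n' + 1)) (fun i ↦ S (z' i))
      calc (((⋃ i ∈ Finset.range (n' + 1), S (z' i)).ncard : ℕ) : ℝ) ≤
          ((∑ i ∈ Finset.range (n' + 1), (S (z' i)).ncard : ℕ) : ℝ) := by exact_mod_cast this
        _ = ∑ i ∈ Finset.range (n' + 1), ((S (z' i)).ncard : ℝ) := by push_cast; rfl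
        _ ≤ ∑ _i ∈ Finset.range (n' + 1), Real.exp (R / 10) :=
            Finset.sum_le_sum fun i hi ↦ hScard _
              ((hzR' i (by have := Finset.mem_range.1 hi; omega)).trans hv)
        _ = _ := by rw [Finset.sum_const, Finset.card_range, nsmul_eq_mul]; push_cast; rfl
    have c3 : (T.ncard : ℝ) ≤ (((⋃ i ∈ Finset.range (n + 1), S (z i)).ncard : ℕ) : ℝ) +
        (((⋃ i ∈ Finset.range (n' + 1), S (z' i)).ncard : ℕ) : ℝ) := by
      exact_mod_cast Set.ncard_union_le _ _
    have c4 : 0 < Real.exp (R / 10) := Real.exp_pos _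
    nlinarith
  have : ((VG pos).dist u v : ℝ) < T.ncard := by exact_mod_cast hdist
  linarith

/-! ### The potential -/

/-- The potential. -/
noncomputable def Phi (t : ℝ) : ℝ := 2 * Real.sinh (t / 2)

lemma Phi_step {a b H d : ℝ} (hH : 10 ≤ H) (ha : |a| < H) (hd : d ≤ H / 100)
    (hab : |b - a| ≤ 2 * Real.exp (3 / 2 * d - H)) : |Phi b - Phi a| ≤ 1 := by
  have h1 : |b - a| ≤ 2 * Real.exp (-(98 / 100) * H) := by
    refine hab.trans ?_
    gcongr
    linarith
  have h2 : 2 * Real.exp (-(98 / 100) * H) ≤ 1 := by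
    have : Real.exp (-(98 / 100) * H) ≤ Real.exp (-1) := Real.exp_le_exp.2 (by linarith)
    have h3 : Real.exp (-1) ≤ 1 / 2 := by
      rw [Real.exp_neg]
      rw [inv_le_comm₀ (Real.exp_pos _) (by norm_num)]
      have := Real.add_one_le_exp (1 : ℝ)
      norm_num
      linarith
    linarith
  have e : Phi b - Phi a = 4 * (Real.cosh ((a + b) / 4) * Real.sinh ((b - a) / 4)) := by
    unfold Phi
    have x1 : b / 2 = (a + b) / 4 + (b - a) / 4 := by ring
    have x2 : a / 2 = (a + b) / 4 - (b - a) / 4 := by ring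
    rw [x1, x2, Real.sinh_add, Real.sinh_sub]
    ring
  rw [e, abs_mul, abs_mul, abs_of_pos (Real.cosh_pos _), Real.abs_sinh, abs_of_pos (by norm_num : (0:ℝ) < 4)]
  have h4 : |(b - a) / 4| ≤ 1 := by
    rw [abs_div, abs_of_pos (by norm_num : (0:ℝ) < 4)]; linarith
  have h5 : Real.sinh |(b - a) / 4| ≤ 2 * |(b - a) / 4| := by
    set x := |(b - a) / 4|
    have hx : 0 ≤ x := abs_nonneg _
    rw [Real.sinh_eq]
    have b1 := Real.exp_bound_div_one_sub_of_interval hx
    have e1 : Real.exp x ≤ 1 + x + x ^ 2 := by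
      have := Real.abs_exp_sub_one_sub_id_le (x := x) (by rw [abs_of_nonneg hx]; exact h4)
      have := (abs_le.1 this).2
      linarith
    have e2 : 1 - x ≤ Real.exp (-x) := by
      have := Real.add_one_le_exp (-x); linarith
    nlinarith
  have h6 : Real.cosh ((a + b) / 4) ≤ Real.exp (H / 2 + 1 / 4) := by
    have h7 : |(a + b) / 4| ≤ H / 2 + 1 / 4 := by
      have : |a + b| ≤ |a| + |a| + |b - a| := by
        calc |a + b| = |a + a + (b - a)| := by ring_nf
          _ ≤ |a + a| + |b - a| := abs_add_le _ _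
          _ ≤ |a| + |a| + |b - a| := by gcongr; exact abs_add_le _ _
      rw [abs_div, abs_of_pos (by norm_num : (0:ℝ) < 4)]
      linarith
    rw [← Real.cosh_abs, Real.cosh_eq]
    have c1 : Real.exp |(a + b) / 4| ≤ Real.exp (H / 2 + 1 / 4) := Real.exp_le_exp.2 h7
    have c2 : Real.exp (-|(a + b) / 4|) ≤ Real.exp (H / 2 + 1 / 4) :=
      Real.exp_le_exp.2 (by have := abs_nonneg ((a + b) / 4); linarith)
    linarith
  have h8 : |(b - a) / 4| ≤ Real.exp (-(98 / 100) * H) / 2 := by
    rw [abs_div, abs_of_pos (by norm_num : (0:ℝ) < 4)]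
    linarith
  calc 4 * (Real.cosh ((a + b) / 4) * Real.sinh |(b - a) / 4|)
      ≤ 4 * (Real.exp (H / 2 + 1 / 4) * (2 * (Real.exp (-(98 / 100) * H) / 2))) := by
        have s0 : 0 ≤ Real.sinh |(b - a) / 4| := Real.sinh_nonneg_iff.2 (abs_nonneg _)
        gcongr
        linarith
    _ = 4 * Real.exp (H / 2 + 1 / 4 + -(98 / 100) * H) := by
        rw [Real.exp_add (H / 2 + 1 / 4) (-(98 / 100) * H)]; ring
    _ ≤ 4 * Real.exp (-2) := by gcongr; linarith
    _ ≤ 1 := by
        rw [Real.exp_neg]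
        have h9 : (4 : ℝ) ≤ Real.exp 2 := by
          have := Real.quadratic_le_exp_of_nonneg (x := 2) (by norm_num)
          linarith
        rw [← div_eq_mul_inv, div_le_one (Real.exp_pos _)]
        exact h9

/-! ### Geodesics pass near the base point -/

lemma geodesic_segment {G : SimpleGraph V} {u v : V} (γ : G.Walk u v)
    (hγ : γ.length = G.dist u v) {i j : ℕ} (hij : i ≤ j) (hj : j ≤ γ.length)
    (hr : G.Reachable (γ.getVert i) (γ.getVert j)) :
    j - i ≤ G.dist (γ.getVert i) (γ.getVert j) := by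
  obtain ⟨p, hp⟩ := hr.exists_walk_length_eq_dist
  have h1 := SimpleGraph.dist_le (((γ.take i).append p).append (γ.drop j))
  rw [SimpleGraph.Walk.length_append, SimpleGraph.Walk.length_append,
    SimpleGraph.Walk.take_length, SimpleGraph.Walk.drop_length, hp] at h1
  omega

lemma exp_beats {t : ℝ} (ht : 299 ≤ t) :
    (4 * (2 * t + 1) + 6) * Real.exp ((2 * t + 1) / 10) < 2 * Real.sinh (t / 2) := by
  have h1 : 2 * Real.sinh (t / 2) = Real.exp (t / 2) - Real.exp (-(t / 2)) := by
    rw [Real.sinh_eq]; ring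
  have h2 : Real.exp (-(t / 2)) ≤ 1 := Real.exp_le_one_iff.2 (by linarith)
  have h3 : (1 : ℝ) ≤ Real.exp ((2 * t + 1) / 10) := Real.one_le_exp (by linarith)
  have h4 : Real.exp (t / 2) = Real.exp ((2 * t + 1) / 10) * Real.exp (3 / 10 * t - 1 / 10) := by
    rw [← Real.exp_add]; congr 1; ring
  have h5 := Real.quadratic_le_exp_of_nonneg (x := 3 / 10 * t - 1 / 10) (by linarith)
  have h6 : 8 * t + 11 < Real.exp (3 / 10 * t - 1 / 10) := by nlinarith
  rw [h1, h4]
  nlinarith

theorem Regular.geodesic_near {ρ s : ℝ} (h : Regular pos ρ) (hρ : 300 ≤ ρ) {u v : V}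
    (hu : fermi (-s) 0 ∈ cellP pos u) (hv : fermi s 0 ∈ cellP pos v) (hs : 0 ≤ s)
    (γ : (VG pos).Walk u v) (hγ : γ.length = (VG pos).dist u v) :
    ∃ w ∈ γ.support, dist (pos w) I ≤ 2 * ρ := by
  by_contra hcon
  push Not at hcon
  have hHH0 : ∀ t : ℝ, HH (fermi t 0) = 0 := by
    intro t
    have := exp_HH_fermi t 0
    rw [Real.cosh_zero] at this
    exact Real.exp_eq_one_iff _ |>.1 this
  have hdI : ∀ t : ℝ, dist (fermi t 0) I = |t| := by
    intro t
    rw [← fermi_zero_zero, dist_fermi_zero, sub_zero]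
  have hend : ∀ t : ℝ, |t| = s → ∀ w : V, w ∈ γ.support → fermi t 0 ∈ cellP pos w →
      ρ < s ∧ dist (fermi t 0) (pos w) ≤ s / 1000 := by
    intro t ht w hw hcell
    have h1 := h.dist_le hcell
    have h2 := hcon w hw
    have h3 := dist_triangle (pos w) (fermi t 0) I
    rw [hdI, ht, dist_comm (pos w) (fermi t 0)] at h3
    have h4 : ρ < s := by
      by_contra h5
      push Not at h5
      have : mm ρ (fermi t 0) = ρ := by unfold mm; rw [hdI, ht]; exact max_eq_left h5
      rw [this] at h1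
      linarith
    refine ⟨h4, ?_⟩
    have : mm ρ (fermi t 0) = s := by unfold mm; rw [hdI, ht]; exact max_eq_right h4.le
    rwa [this] at h1
  obtain ⟨hsρ, hudist⟩ := hend (-s) (by rw [abs_neg, abs_of_nonneg hs]) u γ.start_mem_support hu
  obtain ⟨-, hvdist⟩ := hend s (abs_of_nonneg hs) v γ.end_mem_support hv
  -- notation
  set f : ℕ → V := γ.getVert with hf
  have hfar : ∀ k, 2 * ρ < dist (pos (f k)) I := fun k ↦ hcon _ (γ.getVert_mem_support k)
  have hmm : ∀ k, mm ρ (pos (f k)) = dist (pos (f k)) I := fun k ↦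
    max_eq_right (by linarith [hfar k])
  have hle : ∀ k, dist (pos (f k)) I ≤ HH (pos (f k)) + |tt (pos (f k))| + 1 := fun k ↦
    dist_I_le _
  have hu0 : HH (pos u) ≤ |tt (pos u)| ∧ tt (pos u) < 0 := by
    have h1 := abs_tt_sub_le (fermi (-s) 0) (pos u)
    have h2 := abs_HH_sub_le (fermi (-s) 0) (pos u)
    rw [tt_fermi] at h1
    rw [hHH0] at h2
    have h3 := abs_le.1 h1
    have h4 := abs_le.1 h2
    have h5 : tt (pos u) < 0 := by linarith
    rw [abs_of_neg h5]
    constructor <;> linarith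
  have hv0 : HH (pos v) ≤ |tt (pos v)| ∧ 0 < tt (pos v) := by
    have h1 := abs_tt_sub_le (fermi s 0) (pos v)
    have h2 := abs_HH_sub_le (fermi s 0) (pos v)
    rw [tt_fermi] at h1
    rw [hHH0] at h2
    have h3 := abs_le.1 h1
    have h4 := abs_le.1 h2
    have h5 : 0 < tt (pos v) := by linarith
    rw [abs_of_pos h5]
    constructor <;> linarith
  classical
  have hex : ∃ k, HH (pos (f k)) ≤ |tt (pos (f k))| ∧ 0 < tt (pos (f k)) :=
    ⟨γ.length, by rw [hf, γ.getVert_length]; exact hv0⟩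
  set j := Nat.find hex with hj
  have hjR : HH (pos (f j)) ≤ |tt (pos (f j))| ∧ 0 < tt (pos (f j)) := Nat.find_spec hex
  have hjn : j ≤ γ.length := Nat.find_le (by rw [hf, γ.getVert_length]; exact hv0)
  have hjmin : ∀ k < j, ¬ (HH (pos (f k)) ≤ |tt (pos (f k))| ∧ 0 < tt (pos (f k))) :=
    fun k hk ↦ Nat.find_min hex hk
  set i := Nat.findGreatest (fun k ↦ HH (pos (f k)) ≤ |tt (pos (f k))| ∧ tt (pos (f k)) < 0) j
    with hi
  have hiL : HH (pos (f i)) ≤ |tt (pos (f i))| ∧ tt (pos (f i)) < 0 := by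
    apply Nat.findGreatest_spec (P := fun k ↦ HH (pos (f k)) ≤ |tt (pos (f k))| ∧
      tt (pos (f k)) < 0) (Nat.zero_le j)
    change HH (pos (f 0)) ≤ |tt (pos (f 0))| ∧ tt (pos (f 0)) < 0
    rw [hf, γ.getVert_zero]
    exact hu0
  have hij' : i ≤ j := Nat.findGreatest_le j
  have hij : i < j := by
    rcases hij'.lt_or_eq with h1 | h1
    · exact h1
    · rw [h1] at hiL
      linarith [hiL.2, hjR.2]
  have himax : ∀ k, i < k → k ≤ j →
      ¬ (HH (pos (f k)) ≤ |tt (pos (f k))| ∧ tt (pos (f k)) < 0) :=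
    fun k hk hkj ↦ Nat.findGreatest_is_greatest hk hkj
  have hhigh : ∀ k, i < k → k < j → |tt (pos (f k))| < HH (pos (f k)) := by
    intro k hk hkj
    by_contra h1
    push Not at h1
    rcases lt_trichotomy (tt (pos (f k))) 0 with h2 | h2 | h2
    · exact himax k hk hkj.le ⟨h1, h2⟩
    · rw [h2, abs_zero] at h1
      have := hle k
      rw [h2, abs_zero] at this
      have := hfar k
      linarith
    · exact hjmin k hkj ⟨h1, h2⟩
  -- one step starting from a high vertex
  have hstep : ∀ a b : V, (VG pos).Adj a b → 2 * ρ < dist (pos a) I →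
      |tt (pos a)| < HH (pos a) → |Phi (tt (pos b)) - Phi (tt (pos a))| ≤ 1 := by
    intro a b hab hafar ha
    have h1 := h.jump hab
    have h2 : mm ρ (pos a) = dist (pos a) I := max_eq_right (by linarith)
    rw [h2] at h1
    have h3 := dist_I_le (pos a)
    apply Phi_step (H := HH (pos a)) (d := dist (pos a) (pos b)) (by linarith) ha (by linarith)
    rw [abs_sub_comm]
    exact abs_tt_sub_le_exp _ _
  have hadj : ∀ k < γ.length, (VG pos).Adj (f k) (f (k + 1)) := fun k hk ↦ γ.adj_getVert_succ hk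
  have hti : 2 * ρ < 2 * |tt (pos (f i))| + 1 := by
    have := hle i; have := hfar i; linarith [hiL.1]
  have htj : 2 * ρ < 2 * |tt (pos (f j))| + 1 := by
    have := hle j; have := hfar j; linarith [hjR.1]
  have hne : i + 1 < j := by
    rcases (Nat.succ_le_of_lt hij).lt_or_eq with h1 | h1
    · exact h1
    · exfalso
      have h2 := h.jump (hadj i (hij.trans_le hjn))
      rw [hmm] at h2
      have h3 := hle i
      have h4 := (abs_le.1 (abs_tt_sub_le (pos (f i)) (pos (f (i + 1))))).1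
      have h5 := hjR.2
      rw [← h1] at h5
      have h6 := hiL.1
      have h7 : 0 < tt (pos (f (i + 1))) := h5
      rw [abs_of_neg hiL.2] at hti h3 h6
      linarith
  have hsteps : ∀ k, i ≤ k → k < j → |Phi (tt (pos (f (k + 1)))) - Phi (tt (pos (f k)))| ≤ 1 := by
    intro k hik hkj
    rcases hik.lt_or_eq with h1 | h1
    · exact hstep _ _ (hadj k (hkj.trans_le hjn)) (hfar k) (hhigh k h1 hkj)
    · subst h1
      rw [abs_sub_comm]
      exact hstep _ _ (hadj _ (hkj.trans_le hjn)).symm (hfar _) (hhigh _ (Nat.lt_succ_self _) hne)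
  have htel : ∀ k, i + k ≤ j → Phi (tt (pos (f (i + k)))) - Phi (tt (pos (f i))) ≤ k := by
    intro k
    induction k with
    | zero => intro _; simp
    | succ k ih =>
      intro hk
      have h1 := ih (by omega)
      have h2 := (abs_le.1 (hsteps (i + k) (by omega) (by omega))).2
      rw [← add_assoc]
      push_cast
      linarith
  obtain ⟨l, hl⟩ := Nat.exists_eq_add_of_le hij'
  have hlen := htel l (by omega)
  rw [← hl] at hlen
  -- the maximal longitudinal coordinate
  set T := max |tt (pos (f i))| |tt (pos (f j))| with hT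
  have hT1 : |tt (pos (f i))| ≤ T := le_max_left _ _
  have hT2 : |tt (pos (f j))| ≤ T := le_max_right _ _
  have hTbig : 299 ≤ T := by linarith
  have hTρ : ρ ≤ 2 * T + 1 := by linarith
  have hPhi : 2 * Real.sinh (T / 2) ≤ Phi (tt (pos (f j))) - Phi (tt (pos (f i))) := by
    have e1 : Phi (tt (pos (f j))) = 2 * Real.sinh (|tt (pos (f j))| / 2) := by
      rw [abs_of_pos hjR.2]; rfl
    have e2 : Phi (tt (pos (f i))) = -(2 * Real.sinh (|tt (pos (f i))| / 2)) := by
      rw [abs_of_neg hiL.2, neg_div, Real.sinh_neg]; unfold Phi; ring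
    have s1 : 0 ≤ Real.sinh (|tt (pos (f j))| / 2) := Real.sinh_nonneg_iff.2 (by positivity)
    have s2 : 0 ≤ Real.sinh (|tt (pos (f i))| / 2) := Real.sinh_nonneg_iff.2 (by positivity)
    rw [e1, e2]
    rcases max_choice |tt (pos (f i))| |tt (pos (f j))| with h1 | h1
    · rw [hT, h1]; linarith
    · rw [hT, h1]; linarith
  have hdi : dist (pos (f i)) I ≤ 2 * T + 1 := by have := hle i; linarith [hiL.1]
  have hdj : dist (pos (f j)) I ≤ 2 * T + 1 := by have := hle j; linarith [hjR.1]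
  obtain ⟨hreach, hlt⟩ := h.two_point (by linarith) hTρ hdi hdj
  have hgeo := geodesic_segment γ hγ hij' hjn hreach
  have h1 : (l : ℝ) ≤ ((VG pos).dist (f i) (f j) : ℝ) := by
    have : l ≤ (VG pos).dist (f i) (f j) := by
      change l ≤ (VG pos).dist (γ.getVert i) (γ.getVert j)
      omega
    exact_mod_cast this
  have h2 := exp_beats hTbig
  linarith

/-- All geodesics from the cell of `fermi (-s) 0` to the cell of `fermi s 0` pass within a bounded
graph distance of the cell of the base point. -/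
theorem Regular.geodesic_near' {ρ s : ℝ} (h : Regular pos ρ) (hρ : 300 ≤ ρ) {u v x : V}
    (hu : fermi (-s) 0 ∈ cellP pos u) (hv : fermi s 0 ∈ cellP pos v) (hx : I ∈ cellP pos x)
    (hs : 0 ≤ s) (γ : (VG pos).Walk u v) (hγ : γ.length = (VG pos).dist u v) :
    ∃ w ∈ γ.support, (VG pos).Reachable w x ∧
      ((VG pos).dist w x : ℝ) < (4 * (2 * ρ) + 6) * Real.exp (2 * ρ / 10) := by
  obtain ⟨w, hw, hwd⟩ := h.geodesic_near hρ hu hv hs γ hγ
  refine ⟨w, hw, ?_⟩
  refine h.two_point (by linarith) (by linarith) hwd ?_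
  have h1 := h.dist_le hx
  have h2 : mm ρ I = ρ := by
    unfold mm; rw [dist_self]; exact max_eq_left (by linarith)
  rw [h2, dist_comm] at h1
  linarith

/-- The dual graph is connected. -/
theorem Regular.connected {ρ : ℝ} (h : Regular pos ρ) (hρ : 0 ≤ ρ) : (VG pos).Connected := by
  have := h.nonempty
  rw [SimpleGraph.connected_iff_exists_forall_reachable]
  obtain ⟨x⟩ := this
  refine ⟨x, fun w ↦ ?_⟩
  exact (h.two_point hρ (le_max_left ρ (max (dist (pos x) I) (dist (pos w) I)))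
    ((le_max_left _ _).trans (le_max_right _ _)) ((le_max_right _ _).trans (le_max_right _ _))).1

end Pool.Agent.Lib.MP_80c3a1_pr
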