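import Mathlib
import Pool.Agent.Lib.MP_80c3a1_pr.Defs
import Pool.Agent.Lib.MP_80c3a1_pr.Det

open MeasureTheory UpperHalfPlane Real
open scoped ENNReal UpperHalfPlane

namespace Pool.Agent.Lib.MP_80c3a1_pr

/-- The Cayley map as a function on the complex plane. -/
noncomputable def cay (z : ℂ) : ℂ := Complex.I * (1 + z) / (1 - z)

lemma one_sub_ne_zero_of_norm_lt {z : ℂ} (hz : ‖z‖ < 1) : (1 : ℂ) - z ≠ 0 := by
  intro h
  have : z = 1 := (sub_eq_zero.1 h).symm
  rw [this, norm_one] at hz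
  exact lt_irrefl _ hz

lemma cay_im {z : ℂ} (hz : ‖z‖ < 1) : (cay z).im = (1 - ‖z‖ ^ 2) / ‖1 - z‖ ^ 2 := by
  have h := one_sub_ne_zero_of_norm_lt hz
  have h2 : Complex.normSq (1 - z) ≠ 0 := fun h0 ↦ h (Complex.normSq_eq_zero.1 h0)
  unfold cay
  rw [Complex.div_im, ← Complex.normSq_eq_norm_sq, ← Complex.normSq_eq_norm_sq]
  field_simp
  simp [Complex.normSq_apply]
  ring

/-- The Cayley isometry from the Poincare disc to the upper half-plane. -/
noncomputable def psi (z : Disc) : ℍ :=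
  ⟨cay z, by
    rw [cay_im z.2]
    have h1 : 0 < 1 - ‖(z : ℂ)‖ ^ 2 := by
      have := z.2
      have h0 := norm_nonneg (z : ℂ)
      nlinarith
    have h2 : 0 < ‖1 - (z : ℂ)‖ := norm_pos_iff.2 (one_sub_ne_zero_of_norm_lt z.2)
    positivity⟩

lemma coe_psi (z : Disc) : (psi z : ℂ) = cay z := rfl

lemma psi_im (z : Disc) : (psi z).im = (1 - ‖(z : ℂ)‖ ^ 2) / ‖1 - (z : ℂ)‖ ^ 2 := cay_im z.2

lemma dist_psi (z w : Disc) : dist (psi z) (psi w) = hdist z w := by
  rw [UpperHalfPlane.dist_eq, hdist, psi_im, psi_im, coe_psi, coe_psi, Complex.dist_eq]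
  congr 2
  have hz := one_sub_ne_zero_of_norm_lt z.2
  have hw := one_sub_ne_zero_of_norm_lt w.2
  have h1 : cay z - cay w = 2 * Complex.I * (z - w) / ((1 - z) * (1 - w)) := by
    unfold cay
    field_simp
    ring
  have hz' : 0 < ‖1 - (z : ℂ)‖ := norm_pos_iff.2 hz
  have hw' : 0 < ‖1 - (w : ℂ)‖ := norm_pos_iff.2 hw
  rw [h1, norm_div, norm_mul, norm_mul, norm_mul, Complex.norm_I, Complex.norm_two, mul_one]
  have h2 : (1 - ‖(z : ℂ)‖ ^ 2) / ‖1 - (z : ℂ)‖ ^ 2 * ((1 - ‖(w : ℂ)‖ ^ 2) / ‖1 - (w : ℂ)‖ ^ 2) =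
      ((1 - ‖(z : ℂ)‖ ^ 2) * (1 - ‖(w : ℂ)‖ ^ 2)) / (‖1 - (z : ℂ)‖ * ‖1 - (w : ℂ)‖) ^ 2 := by
    field_simp
  rw [h2, Real.sqrt_div' _ (by positivity), Real.sqrt_sq (by positivity)]
  field_simp

lemma one_sub_norm_sq_pos (z : Disc) : 0 < 1 - ‖(z : ℂ)‖ ^ 2 := by
  have := z.2
  have h0 := norm_nonneg (z : ℂ)
  nlinarith

/-- The inverse of the Cayley map. -/
noncomputable def psiInv (w : ℍ) : Disc :=
  ⟨((w : ℂ) - Complex.I) / ((w : ℂ) + Complex.I), by
    have hw := w.im_pos
    have h1 : (w : ℂ) + Complex.I ≠ 0 := by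
      intro h
      have := congrArg Complex.im h
      simp at this
      linarith
    rw [norm_div, div_lt_one (norm_pos_iff.2 h1)]
    rw [← sq_lt_sq₀ (norm_nonneg _) (norm_nonneg _), ← Complex.normSq_eq_norm_sq,
      ← Complex.normSq_eq_norm_sq, Complex.normSq_apply, Complex.normSq_apply]
    simp
    nlinarith⟩

lemma psi_psiInv (w : ℍ) : psi (psiInv w) = w := by
  apply UpperHalfPlane.ext
  rw [coe_psi]
  have hw := w.im_pos
  have h1 : (w : ℂ) + Complex.I ≠ 0 := by
    intro h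
    have := congrArg Complex.im h
    simp at this
    linarith
  change cay (((w : ℂ) - Complex.I) / ((w : ℂ) + Complex.I)) = w
  unfold cay
  have h2 : (1 : ℂ) - ((w : ℂ) - Complex.I) / ((w : ℂ) + Complex.I) =
      2 * Complex.I / ((w : ℂ) + Complex.I) := by
    field_simp; ring
  have h3 : (1 : ℂ) + ((w : ℂ) - Complex.I) / ((w : ℂ) + Complex.I) =
      2 * w / ((w : ℂ) + Complex.I) := by
    field_simp; ring
  rw [h2, h3]
  have := Complex.I_ne_zero
  field_simp

lemma psi_surjective : Function.Surjective psi := fun w ↦ ⟨psiInv w, psi_psiInv w⟩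

lemma cay_injOn : Set.InjOn cay {z : ℂ | ‖z‖ < 1} := by
  intro z hz w hw h
  have hz := one_sub_ne_zero_of_norm_lt hz
  have hw := one_sub_ne_zero_of_norm_lt hw
  unfold cay at h
  have := Complex.I_ne_zero
  field_simp at h
  have h2 : 2 * (z - w) = 0 := by linear_combination h
  have h3 : z - w = 0 := by
    rcases mul_eq_zero.1 h2 with h4 | h4
    · norm_num at h4
    · exact h4
  exact sub_eq_zero.1 h3

lemma psi_injective : Function.Injective psi := by
  intro z w h
  apply Subtype.ext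
  exact cay_injOn z.2 w.2 (congrArg UpperHalfPlane.coe h)

/-! ### Measurability and the change of variables -/

lemma hasDerivAt_cay {z : ℂ} (hz : ‖z‖ < 1) :
    HasDerivAt cay (2 * Complex.I / (1 - z) ^ 2) z := by
  have h := one_sub_ne_zero_of_norm_lt hz
  have h1 : HasDerivAt (fun z : ℂ ↦ Complex.I * (1 + z)) (Complex.I * 1) z :=
    ((hasDerivAt_id z).const_add 1).const_mul Complex.I
  have h2 : HasDerivAt (fun z : ℂ ↦ 1 - z) (-1) z := (hasDerivAt_id z).const_sub 1
  have h3 := h1.div h2 h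
  convert! h3 using 1
  field_simp
  ring

lemma continuous_psi : Continuous psi := by
  rw [UpperHalfPlane.isEmbedding_coe.continuous_iff]
  change Continuous fun z : Disc ↦ cay z
  rw [continuous_iff_continuousAt]
  intro z
  exact ((hasDerivAt_cay z.2).continuousAt).comp continuousAt_subtype_val

lemma measurable_psi : Measurable psi := continuous_psi.measurable

lemma det_mul_complex (c : ℂ) :
    (((ContinuousLinearMap.toSpanSingleton ℂ c : ℂ →L[ℂ] ℂ).restrictScalars ℝ)).det =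
      ‖c‖ ^ 2 := by
  simp [ContinuousLinearMap.det, LinearMap.det_restrictScalars,
      Algebra.norm_complex_eq, Complex.normSq_eq_norm_sq]

lemma measurableSet_disc : MeasurableSet {z : ℂ | ‖z‖ < 1} :=
  (isOpen_lt continuous_norm continuous_const).measurableSet

lemma measurableEmbedding_val : MeasurableEmbedding (Subtype.val : Disc → ℂ) :=
  MeasurableEmbedding.subtype_coe measurableSet_disc

lemma harea_eq_lintegral {s : Set Disc} (hs : MeasurableSet s) :
    harea s = ∫⁻ z in Subtype.val '' s, ENNReal.ofReal (4 / (1 - ‖(z : ℂ)‖ ^ 2) ^ 2) := by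
  have : MeasurePreserving (Subtype.val : Disc → ℂ) ((volume : Measure ℂ).comap Subtype.val)
      (volume.restrict (Set.range (Subtype.val : Disc → ℂ))) :=
    ⟨measurable_subtype_coe, by rw [measurableEmbedding_val.map_comap]⟩
  have h := this.setLIntegral_comp_emb measurableEmbedding_val
    (fun z : ℂ ↦ ENNReal.ofReal (4 / (1 - ‖(z : ℂ)‖ ^ 2) ^ 2)) s
  rw [harea, withDensity_apply _ hs, h, Measure.restrict_restrict,
    Set.inter_eq_self_of_subset_left (Set.image_subset_range _ _)]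
  exact measurableEmbedding_val.measurableSet_image.2 hs

lemma harea_preimage {A : Set ℍ} (hA : MeasurableSet A) : harea (psi ⁻¹' A) = volume A := by
  have hm : MeasurableSet (psi ⁻¹' A) := measurable_psi hA
  have hs : MeasurableSet (Subtype.val '' (psi ⁻¹' A) : Set ℂ) :=
    measurableEmbedding_val.measurableSet_image.2 hm
  have himg : cay '' (Subtype.val '' (psi ⁻¹' A)) = UpperHalfPlane.coe '' A := by
    ext w
    constructor
    · rintro ⟨_, ⟨z, hz, rfl⟩, rfl⟩
      exact ⟨psi z, hz, rfl⟩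
    · rintro ⟨w, hw, rfl⟩
      refine ⟨psiInv w, ⟨psiInv w, ?_, rfl⟩, ?_⟩
      · change psi (psiInv w) ∈ A
        rwa [psi_psiInv]
      · exact congrArg UpperHalfPlane.coe (psi_psiInv w)
  rw [volume_eq_lintegral, harea_eq_lintegral hm, ← himg]
  have main := MeasureTheory.lintegral_image_eq_lintegral_abs_det_fderiv_mul volume hs
    (f := cay)
    (f' := fun z ↦ (ContinuousLinearMap.toSpanSingleton ℂ
      (2 * Complex.I / (1 - z) ^ 2) : ℂ →L[ℂ] ℂ).restrictScalars ℝ)
    (by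
      rintro _ ⟨z, -, rfl⟩
      exact ((hasDerivAt_cay z.2).hasFDerivAt.restrictScalars ℝ).hasFDerivWithinAt)
    (by
      rintro _ ⟨z, -, rfl⟩ _ ⟨w, -, rfl⟩ h
      exact cay_injOn z.2 w.2 h)
    (fun z ↦ ↑((1 / ‖z.im‖₊) ^ 2 : NNReal))
  rw [main]
  refine setLIntegral_congr_fun hs ?_
  rintro _ ⟨z, -, rfl⟩
  have h1 := one_sub_norm_sq_pos z
  have h2 : 0 < ‖1 - (z : ℂ)‖ := norm_pos_iff.2 (one_sub_ne_zero_of_norm_lt z.2)
  have h3 : (0 : ℝ) < (cay z).im := by rw [cay_im z.2]; positivity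
  have h4 : (((1 / ‖(cay z).im‖₊) ^ 2 : NNReal) : ℝ≥0∞) =
      ENNReal.ofReal ((1 / (cay z).im) ^ 2) := by
    rw [ENNReal.ofReal, ENNReal.coe_inj]
    apply NNReal.eq
    rw [Real.coe_toNNReal _ (by positivity)]
    push_cast
    rw [Real.norm_of_nonneg h3.le]
  change ENNReal.ofReal (4 / (1 - ‖(z : ℂ)‖ ^ 2) ^ 2) = ENNReal.ofReal |_| * _
  rw [det_mul_complex, h4, ← ENNReal.ofReal_mul (abs_nonneg _)]
  congr 1
  rw [abs_of_nonneg (by positivity), cay_im z.2, norm_div, norm_pow, norm_mul, Complex.norm_I,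
    Complex.norm_two]
  field_simp
  norm_num

/-! ### The graphs -/

lemma voronoiCell_iff (S : Set Disc) (x : S) (z : Disc) :
    z ∈ voronoiCell S x ↔ psi z ∈ cellP (fun v : S ↦ psi v) x := by
  unfold voronoiCell cellP
  constructor
  · intro h y
    rw [dist_psi, dist_psi]
    exact h y y.2
  · intro h y hy
    have := h ⟨y, hy⟩
    rwa [dist_psi, dist_psi] at this

lemma voronoiGraph_eq (S : Set Disc) : voronoiGraph S = VG (fun v : S ↦ psi v) := by
  ext x y
  constructor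
  · rintro ⟨hne, p, q, hpq, h⟩
    refine ⟨hne, psi p, psi q, fun h0 ↦ hpq (psi_injective h0), ?_⟩
    intro m hm
    obtain ⟨z, rfl⟩ := psi_surjective m
    have hz : z ∈ hsegment p q := by
      change dist _ _ + dist _ _ = dist _ _ at hm
      rw [dist_psi, dist_psi, dist_psi] at hm
      exact hm
    exact ⟨(voronoiCell_iff S x z).1 (h hz).1, (voronoiCell_iff S y z).1 (h hz).2⟩
  · rintro ⟨hne, p, q, hpq, h⟩
    obtain ⟨p, rfl⟩ := psi_surjective p
    obtain ⟨q, rfl⟩ := psi_surjective q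
    refine ⟨hne, p, q, fun h0 ↦ hpq (by rw [h0]), ?_⟩
    intro z hz
    have hm : psi z ∈ {m | dist (psi p) m + dist m (psi q) = dist (psi p) (psi q)} := by
      change dist _ _ + dist _ _ = dist _ _
      rw [dist_psi, dist_psi, dist_psi]
      exact hz
    exact ⟨(voronoiCell_iff S x z).2 (h hm).1, (voronoiCell_iff S y z).2 (h hm).2⟩

/-! ### Real points -/

lemma psi_real {r s : ℝ} (hr : |r| < 1) (hs : Real.exp s = (1 + r) / (1 - r)) (z : Disc)
    (hz : (z : ℂ) = (r : ℂ)) : psi z = fermi s 0 := by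
  have h1 := (abs_lt.1 hr)
  apply UpperHalfPlane.ext
  apply Complex.ext
  · rw [coe_psi, hz, UpperHalfPlane.coe_re, fermi_re]
    unfold cay
    have : Complex.I * (1 + (r : ℂ)) / (1 - (r : ℂ)) = (((1 + r) / (1 - r) : ℝ) : ℂ) * Complex.I := by
      push_cast
      ring
    rw [this, Complex.re_ofReal_mul, Complex.I_re]
    simp
  · rw [coe_psi, hz, UpperHalfPlane.coe_im, fermi_im]
    unfold cay
    have : Complex.I * (1 + (r : ℂ)) / (1 - (r : ℂ)) = (((1 + r) / (1 - r) : ℝ) : ℂ) * Complex.I := by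
      push_cast
      ring
    rw [this, hs, Complex.im_ofReal_mul, Complex.I_im]
    simp

end Pool.Agent.Lib.MP_80c3a1_pr
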