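import Mathlib
import Pool.Agent.Lib.MP_80c3a1_pr.HypGeom

open MeasureTheory UpperHalfPlane Real
open scoped ENNReal UpperHalfPlane

namespace Pool.Agent.Lib.MP_80c3a1_pr

/-- The points of the net. -/
noncomputable def netPt (j k : ℤ) : ℍ := ⟨⟨j * Real.exp k, Real.exp k⟩, Real.exp_pos _⟩

lemma dist_netPt (y : ℍ) : dist y (netPt ⌊y.re / Real.exp ⌊Real.log y.im⌋⌋ ⌊Real.log y.im⌋) ≤ 2 := by
  set k : ℤ := ⌊Real.log y.im⌋ with hk
  set E : ℝ := Real.exp k with hE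
  set j : ℤ := ⌊y.re / E⌋ with hj
  have hE0 : 0 < E := Real.exp_pos _
  have hy := y.im_pos
  have hv1 : E ≤ y.im := by
    rw [hE, ← Real.le_log_iff_exp_le hy]
    exact Int.floor_le _
  have hv2 : y.im ≤ 3 * E := by
    have h1 : Real.log y.im < k + 1 := Int.lt_floor_add_one _
    have h2 : y.im < Real.exp (k + 1) := by
      rwa [← Real.log_lt_iff_lt_exp hy]
    rw [Real.exp_add] at h2
    have h3 : Real.exp 1 < 3 := Real.exp_one_lt_three
    nlinarith
  have hj1 : (j : ℝ) ≤ y.re / E := Int.floor_le _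
  have hj2 : y.re / E < j + 1 := Int.lt_floor_add_one _
  rw [le_div_iff₀ hE0] at hj1
  rw [div_lt_iff₀ hE0] at hj2
  have hch : Real.cosh (dist y (netPt j k)) ≤ Real.cosh 2 := by
    rw [UpperHalfPlane.cosh_dist]
    have e1 : dist (y : ℂ) (netPt j k : ℂ) ^ 2 = (y.re - j * E) ^ 2 + (y.im - E) ^ 2 := by
      rw [Complex.dist_eq, ← Complex.normSq_eq_norm_sq, Complex.normSq_apply]
      simp [netPt]
      ring
    rw [e1]
    change 1 + _ / (2 * y.im * E) ≤ _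
    have h3 := sq_div_two_le_cosh_sub_one 2
    have h4 : ((y.re - j * E) ^ 2 + (y.im - E) ^ 2) / (2 * y.im * E) ≤ 2 := by
      rw [div_le_iff₀ (by positivity)]
      have h5 : (y.re - j * E) ^ 2 ≤ E ^ 2 := by
        apply sq_le_sq'
        · linarith
        · linarith
      have h6 : (y.im - E) ^ 2 ≤ (y.im - E) * (2 * E) := by
        nlinarith
      nlinarith
    linarith
  rw [Real.cosh_le_cosh, abs_of_nonneg dist_nonneg, abs_of_nonneg (by norm_num)] at hch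
  exact hch

lemma two_mul_add_three_le (n : ℕ) : 2 * n + 3 ≤ 3 ^ (n + 1) := by
  induction n with
  | zero => norm_num
  | succ n ih =>
    rw [pow_succ]
    omega

lemma exists_net : ∃ F : ℕ → Finset ℍ, (∀ (n : ℕ) (y : ℍ), dist y I ≤ n + 1 →
    ∃ c ∈ F n, dist y c ≤ 2) ∧ ∀ n, (F n).card ≤ 3 ^ (3 * n + 4) := by
  classical
  refine ⟨fun n ↦ (Finset.Icc (-(3 : ℤ) ^ (2 * n + 2) - 1) (3 ^ (2 * n + 2)) ×ˢ
    Finset.Icc (-((n : ℤ) + 1)) (n + 1)).image fun p ↦ netPt p.1 p.2, ?_, ?_⟩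
  · intro n y hy
    refine ⟨_, ?_, dist_netPt y⟩
    rw [Finset.mem_image]
    refine ⟨(⌊y.re / Real.exp ⌊Real.log y.im⌋⌋, ⌊Real.log y.im⌋), ?_, rfl⟩
    have h1 := UpperHalfPlane.dist_log_im_le y I
    rw [Real.dist_eq] at h1
    have h2 : Real.log (I : ℍ).im = 0 := by simp
    rw [h2, sub_zero] at h1
    have h3 := abs_le.1 (h1.trans hy)
    have hk1 : (-((n : ℤ) + 1)) ≤ ⌊Real.log y.im⌋ := by
      rw [Int.le_floor]; push_cast; linarith
    have hk2 : ⌊Real.log y.im⌋ ≤ (n : ℤ) + 1 := by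
      have : (⌊Real.log y.im⌋ : ℝ) ≤ (n : ℝ) + 1 := (Int.floor_le _).trans h3.2
      exact_mod_cast this
    have h4 : |y.re| ≤ Real.exp (n + 1) := by
      calc |y.re| ≤ ‖(y : ℂ)‖ := Complex.abs_re_le_norm _
        _ = Real.exp (tt y) := (exp_tt y).symm
        _ ≤ Real.exp (n + 1) := Real.exp_le_exp.2 ((le_abs_self _).trans ((abs_tt_le y).trans hy))
    have h5 : Real.exp (-((n : ℝ) + 1)) ≤ Real.exp ⌊Real.log y.im⌋ := by
      apply Real.exp_le_exp.2
      exact_mod_cast hk1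
    have h6 : |y.re / Real.exp ⌊Real.log y.im⌋| ≤ 3 ^ (2 * n + 2) := by
      rw [abs_div, abs_of_pos (Real.exp_pos _)]
      calc |y.re| / Real.exp ⌊Real.log y.im⌋
          ≤ Real.exp (n + 1) / Real.exp (-((n : ℝ) + 1)) := by gcongr
        _ = Real.exp ((2 * n + 2 : ℕ) * 1) := by
            rw [← Real.exp_sub]; congr 1; push_cast; ring
        _ = Real.exp 1 ^ (2 * n + 2) := by rw [Real.exp_nat_mul]
        _ ≤ 3 ^ (2 * n + 2) := by
            gcongr
            exact Real.exp_one_lt_three.le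
    have h7 := abs_le.1 h6
    rw [Finset.mem_product, Finset.mem_Icc, Finset.mem_Icc]
    refine ⟨⟨?_, ?_⟩, hk1, hk2⟩
    · rw [Int.le_floor]
      push_cast
      linarith [h7.1]
    · have : (⌊y.re / Real.exp ⌊Real.log y.im⌋⌋ : ℝ) ≤ (3 : ℝ) ^ (2 * n + 2) :=
        (Int.floor_le _).trans h7.2
      exact_mod_cast this
  · intro n
    refine Finset.card_image_le.trans ?_
    rw [Finset.card_product, Int.card_Icc, Int.card_Icc]
    have h1 : ((n : ℤ) + 1 + 1 - -((n : ℤ) + 1)).toNat = 2 * n + 3 := by omega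
    have h2 : ((3 : ℤ) ^ (2 * n + 2) + 1 - (-(3 : ℤ) ^ (2 * n + 2) - 1)).toNat =
        2 * 3 ^ (2 * n + 2) + 2 := by
      have h0 : (0 : ℤ) < 3 ^ (2 * n + 2) := by positivity
      zify
      rw [Int.toNat_of_nonneg (by linarith)]
      ring
    rw [h1, h2]
    have h3 := two_mul_add_three_le n
    have h4 : 2 * 3 ^ (2 * n + 2) + 2 ≤ 3 ^ (2 * n + 3) := by
      have : 1 ≤ 3 ^ (2 * n + 1) := Nat.one_le_pow _ _ (by norm_num)
      rw [pow_succ 3 (2 * n + 2), pow_succ 3 (2 * n + 1)]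
      omega
    calc (2 * 3 ^ (2 * n + 2) + 2) * (2 * n + 3) ≤ 3 ^ (2 * n + 3) * 3 ^ (n + 1) :=
          Nat.mul_le_mul h4 h3
      _ = 3 ^ (3 * n + 4) := by rw [← pow_add]; congr 1; ring

end Pool.Agent.Lib.MP_80c3a1_pr
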