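import Mathlib
import Pool.Agent.Lib.MP_80c3a1_pr.Defs

open MeasureTheory ProbabilityTheory
open scoped ENNReal

namespace Pool.Agent.Lib.MP_80c3a1_pr

variable {Ω X : Type*} [MeasurableSpace Ω] [MeasurableSpace X] {P : Measure Ω}
  {μ : Measure X} {S : Ω → Set X}

lemma tsum_pow_div_factorial (x : ℝ) : ∑' k : ℕ, x ^ k / k.factorial = Real.exp x := by
  rw [Real.exp_eq_exp_ℝ, NormedSpace.exp_eq_tsum_div]

lemma IsPoissonProcess.void (h : IsPoissonProcess P μ S) {A : Set X} (hA : MeasurableSet A)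
    (hμ : μ A ≠ ∞) :
    P {ω | (S ω ∩ A).encard = 0} = ENNReal.ofReal (Real.exp (-(μ A).toReal)) := by
  have := h.poisson A hA hμ 0
  simpa using this

lemma IsPoissonProcess.top [IsProbabilityMeasure P] (h : IsPoissonProcess P μ S) {A : Set X}
    (hA : MeasurableSet A) (hμ : μ A ≠ ∞) : P {ω | (S ω ∩ A).encard = ⊤} = 0 := by
  have hm := h.measurable_count A hA
  set m : ℝ := (μ A).toReal with hmdef
  have hm0 : 0 ≤ m := ENNReal.toReal_nonneg
  have hfin : {ω | (S ω ∩ A).encard = ⊤} = (⋃ k : ℕ, {ω | (S ω ∩ A).encard = k})ᶜ := by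
    ext ω
    simp only [Set.mem_compl_iff, Set.mem_iUnion, not_exists, Set.mem_ofPred_eq]
    constructor
    · intro h1 k h2
      rw [h1] at h2
      exact ENat.top_ne_natCast k h2
    · intro h1
      by_contra h2
      obtain ⟨k, hk⟩ := ENat.ne_top_iff_exists.1 h2
      exact h1 k hk.symm
  have hmeas : ∀ k : ℕ, MeasurableSet {ω | (S ω ∩ A).encard = k} := fun k ↦
    hm (measurableSet_singleton _)
  rw [hfin, prob_compl_eq_zero_iff (MeasurableSet.iUnion hmeas), measure_iUnion _ hmeas]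
  · have h1 : ∀ k : ℕ, P {ω | (S ω ∩ A).encard = k} =
        ENNReal.ofReal (Real.exp (-m) * m ^ k / k.factorial) := fun k ↦ h.poisson A hA hμ k
    simp_rw [h1]
    rw [← ENNReal.ofReal_tsum_of_nonneg]
    · have h2 : ∑' k : ℕ, Real.exp (-m) * m ^ k / k.factorial = 1 := by
        simp_rw [mul_div_assoc]
        rw [tsum_mul_left, tsum_pow_div_factorial, ← Real.exp_add, neg_add_cancel, Real.exp_zero]
      rw [h2, ENNReal.ofReal_one]
    · intro k; positivity
    · simp_rw [mul_div_assoc]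
      exact (Real.summable_pow_div_factorial m).mul_left _
  · intro i j hij
    rw [Function.onFun, Set.disjoint_left]
    intro ω h1 h2
    rw [Set.mem_ofPred_eq] at h1 h2
    rw [h1] at h2
    exact hij (by exact_mod_cast h2)

lemma IsPoissonProcess.tail [IsProbabilityMeasure P] (h : IsPoissonProcess P μ S) {A : Set X}
    (hA : MeasurableSet A) (hμ : μ A ≠ ∞) (k : ℕ) :
    P {ω | (k : ℕ∞) ≤ (S ω ∩ A).encard} ≤ ENNReal.ofReal (Real.exp (μ A).toReal / 2 ^ k) := by
  set m : ℝ := (μ A).toReal with hmdef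
  have hm0 : 0 ≤ m := ENNReal.toReal_nonneg
  have hsub : {ω | (k : ℕ∞) ≤ (S ω ∩ A).encard} ⊆
      {ω | (S ω ∩ A).encard = ⊤} ∪ ⋃ j : ℕ, {ω | (S ω ∩ A).encard = (j + k : ℕ)} := by
    intro ω hω
    rw [Set.mem_ofPred_eq] at hω
    by_cases h1 : (S ω ∩ A).encard = ⊤
    · exact Or.inl h1
    · right
      obtain ⟨l, hl⟩ := ENat.ne_top_iff_exists.1 h1
      rw [← hl] at hω
      have hkl : k ≤ l := by exact_mod_cast hω
      refine Set.mem_iUnion.2 ⟨l - k, ?_⟩
      rw [Set.mem_ofPred_eq, ← hl, Nat.sub_add_cancel hkl]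
  calc P {ω | (k : ℕ∞) ≤ (S ω ∩ A).encard}
      ≤ P {ω | (S ω ∩ A).encard = ⊤} + ∑' j : ℕ, P {ω | (S ω ∩ A).encard = (j + k : ℕ)} :=
        (measure_mono hsub).trans ((measure_union_le _ _).trans
          (add_le_add le_rfl (measure_iUnion_le _)))
    _ = ∑' j : ℕ, ENNReal.ofReal (Real.exp (-m) * m ^ (j + k) / (j + k).factorial) := by
        rw [h.top hA hμ, zero_add]
        congr 1
        ext j
        exact h.poisson A hA hμ (j + k)
    _ ≤ ∑' j : ℕ, ENNReal.ofReal (Real.exp (-m) / 2 ^ k * ((2 * m) ^ (j + k) /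
          (j + k).factorial)) := by
        gcongr with j
        have h1 : (2 : ℝ) ^ k ≤ 2 ^ (j + k) := pow_le_pow_right₀ (by norm_num) (by omega)
        rw [mul_pow, mul_div_assoc, div_mul_eq_mul_div, le_div_iff₀ (by positivity)]
        calc Real.exp (-m) * (m ^ (j + k) / (j + k).factorial) * 2 ^ k
            ≤ Real.exp (-m) * (m ^ (j + k) / (j + k).factorial) * 2 ^ (j + k) := by gcongr
          _ = _ := by ring
    _ ≤ ∑' j : ℕ, ENNReal.ofReal (Real.exp (-m) / 2 ^ k * ((2 * m) ^ j / j.factorial)) :=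
        ENNReal.tsum_comp_le_tsum_of_injective (add_left_injective k)
          (fun j ↦ ENNReal.ofReal (Real.exp (-m) / 2 ^ k * ((2 * m) ^ j / j.factorial)))
    _ = ENNReal.ofReal (Real.exp m / 2 ^ k) := by
        rw [← ENNReal.ofReal_tsum_of_nonneg]
        · congr 1
          rw [tsum_mul_left, tsum_pow_div_factorial, div_mul_eq_mul_div, ← Real.exp_add]
          congr 2
          ring
        · intro j; positivity
        · exact (Real.summable_pow_div_factorial (2 * m)).mul_left _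

end Pool.Agent.Lib.MP_80c3a1_pr
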