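import Mathlib
import Pool.Agent.Lib.MP_80c3a1_pr.Cayley
import Pool.Agent.Lib.MP_80c3a1_pr.Area
import Pool.Agent.Lib.MP_80c3a1_pr.Net
import Pool.Agent.Lib.MP_80c3a1_pr.Poisson

open MeasureTheory ProbabilityTheory UpperHalfPlane Filter
open scoped ENNReal UpperHalfPlane Topology

namespace Pool.Agent.Lib.MP_80c3a1_pr

/-! ### Numerical estimates -/

lemma three_pow_le (m : ℕ) : (3 : ℝ) ^ m ≤ Real.exp (2 * m) := by
  have h1 : (3 : ℝ) ≤ Real.exp 2 := by
    have h2 := Real.add_one_le_exp (1 : ℝ)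
    have h3 : Real.exp 2 = Real.exp 1 * Real.exp 1 := by rw [← Real.exp_add]; norm_num
    rw [h3]; nlinarith
  calc (3 : ℝ) ^ m ≤ Real.exp 2 ^ m := by gcongr
    _ = Real.exp (2 * m) := by rw [← Real.exp_nat_mul]; congr 1; ring

lemma numeric_void {lam : ℝ} (hlam : 0 < lam) : ∃ C : ℝ, 0 ≤ C ∧ ∀ n : ℕ,
    (3 : ℝ) ^ (3 * n + 4) * Real.exp (-(lam * ((Real.cosh (n / 1000 - 2) - 1) / 2))) ≤
      C * Real.exp (-n) := by
  refine ⟨Real.exp (14008 + 49000000 / lam), (Real.exp_pos _).le, fun n ↦ ?_⟩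
  have h1 := three_pow_le (3 * n + 4)
  have h2 := sq_div_two_le_cosh_sub_one ((n : ℝ) / 1000 - 2)
  calc (3 : ℝ) ^ (3 * n + 4) * Real.exp (-(lam * ((Real.cosh (n / 1000 - 2) - 1) / 2)))
      ≤ Real.exp (2 * (3 * n + 4 : ℕ)) *
        Real.exp (-(lam * ((Real.cosh (n / 1000 - 2) - 1) / 2))) := by gcongr
    _ = Real.exp (2 * (3 * n + 4) - lam * ((Real.cosh (n / 1000 - 2) - 1) / 2)) := by
        rw [← Real.exp_add]; push_cast; congr 1
    _ ≤ Real.exp (14008 + 49000000 / lam + -n) := by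
        apply Real.exp_le_exp.2
        have h3 : lam * (((n : ℝ) / 1000 - 2) ^ 2 / 2 / 2) ≤
            lam * ((Real.cosh (n / 1000 - 2) - 1) / 2) := by gcongr
        set y : ℝ := (n : ℝ) / 1000 - 2 with hy
        have hn : (n : ℝ) = 1000 * (y + 2) := by rw [hy]; ring
        have h4 : 7000 * y ≤ lam * (y ^ 2 / 2 / 2) + 49000000 / lam := by
          have h5 : 0 ≤ (lam * y / 2 - 7000) ^ 2 / lam := by positivity
          have h6 : (lam * y / 2 - 7000) ^ 2 / lam =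
              lam * (y ^ 2 / 2 / 2) - 7000 * y + 49000000 / lam := by
            field_simp
            ring
          linarith
        rw [hn]
        linarith
    _ = _ := by rw [Real.exp_add]

lemma numeric_few (lam : ℝ) : ∃ C : ℝ, 0 ≤ C ∧ ∀ n : ℕ,
    (3 : ℝ) ^ (3 * n + 4) * (Real.exp (lam * Real.exp (4 * (4 + (n + 3) / 1000))) /
      2 ^ (⌊Real.exp (n / 10)⌋₊ + 1)) ≤ C * Real.exp (-n) := by
  set K : ℝ := lam * Real.exp (16 + 12 / 1000) with hK
  refine ⟨Real.exp (9808 + K ^ 2), (Real.exp_pos _).le, fun n ↦ ?_⟩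
  have h1 := three_pow_le (3 * n + 4)
  set W : ℝ := Real.exp (n / 10) with hW
  set z : ℝ := Real.exp (n / 250) with hz
  have hz1 : 1 ≤ z := Real.one_le_exp (by positivity)
  have hWz : W = z ^ 25 := by
    rw [hW, hz, ← Real.exp_nat_mul]; congr 1; push_cast; ring
  have hWz2 : z ^ 2 ≤ W := by rw [hWz]; exact pow_le_pow_right₀ hz1 (by norm_num)
  have h2 : Real.exp (W / 2) ≤ 2 ^ (⌊W⌋₊ + 1) := by
    have h3 : W < ((⌊W⌋₊ + 1 : ℕ) : ℝ) := by push_cast; exact Nat.lt_floor_add_one W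
    have h4 : (2 : ℝ) = Real.exp (Real.log 2) := (Real.exp_log (by norm_num)).symm
    rw [h4, ← Real.exp_nat_mul]
    apply Real.exp_le_exp.2
    have h5 : (1 / 2 : ℝ) ≤ Real.log 2 := by linarith [Real.log_two_gt_d9]
    have h6 : 0 < W := Real.exp_pos _
    rw [← h4]
    nlinarith
  have h3 : lam * Real.exp (4 * (4 + (n + 3) / 1000)) = K * z := by
    rw [hK, hz, mul_assoc, ← Real.exp_add]; congr 2; ring
  rw [h3]
  calc (3 : ℝ) ^ (3 * n + 4) * (Real.exp (K * z) / 2 ^ (⌊W⌋₊ + 1))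
      ≤ Real.exp (2 * (3 * n + 4 : ℕ)) * (Real.exp (K * z) / Real.exp (W / 2)) := by gcongr
    _ = Real.exp (2 * (3 * n + 4) + (K * z - W / 2)) := by
        rw [← Real.exp_sub, ← Real.exp_add]; push_cast; rfl
    _ ≤ Real.exp (9808 + K ^ 2 + -n) := by
        apply Real.exp_le_exp.2
        have h4 : K * z ≤ z ^ 2 / 4 + K ^ 2 := by nlinarith [sq_nonneg (z / 2 - K)]
        have h5 : (n : ℝ) ^ 2 / 200 ≤ W := by
          have := Real.quadratic_le_exp_of_nonneg (x := (n : ℝ) / 10) (by positivity)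
          have hn : (0 : ℝ) ≤ n := Nat.cast_nonneg n
          rw [hW]
          nlinarith
        nlinarith [sq_nonneg ((n : ℝ) - 2800)]
    _ = _ := by rw [Real.exp_add]

/-! ### Masses of hyperbolic balls -/

section mass

variable {lam : ℝ}

lemma mass_eq (c : ℍ) (s : ℝ) : (ENNReal.ofReal lam • harea) (psi ⁻¹' Metric.closedBall c s) =
    ENNReal.ofReal lam * volume (Metric.closedBall c s) := by
  rw [Measure.smul_apply, smul_eq_mul, harea_preimage Metric.isClosed_closedBall.measurableSet]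

lemma mass_le (hlam : 0 ≤ lam) (c : ℍ) {s : ℝ} (hs : 0 ≤ s) :
    (ENNReal.ofReal lam • harea) (psi ⁻¹' Metric.closedBall c s) ≤
      ENNReal.ofReal (lam * Real.exp (4 * s)) := by
  rw [mass_eq, ENNReal.ofReal_mul hlam]
  gcongr
  exact area_upper c hs

lemma mass_ne_top (hlam : 0 ≤ lam) (c : ℍ) (s : ℝ) :
    (ENNReal.ofReal lam • harea) (psi ⁻¹' Metric.closedBall c s) ≠ ∞ := by
  have h1 : psi ⁻¹' Metric.closedBall c s ⊆ psi ⁻¹' Metric.closedBall c (max s 0) :=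
    Set.preimage_mono (Metric.closedBall_subset_closedBall (le_max_left _ _))
  exact ne_top_of_le_ne_top ENNReal.ofReal_ne_top
    ((measure_mono h1).trans (mass_le hlam c (le_max_right _ _)))

lemma mass_toReal_le (hlam : 0 ≤ lam) (c : ℍ) {s : ℝ} (hs : 0 ≤ s) :
    ((ENNReal.ofReal lam • harea) (psi ⁻¹' Metric.closedBall c s)).toReal ≤
      lam * Real.exp (4 * s) :=
  ENNReal.toReal_le_of_le_ofReal (by positivity) (mass_le hlam c hs)

lemma le_mass_toReal (hlam : 0 ≤ lam) (c : ℍ) {s : ℝ} (hs : 0 ≤ s) (hs2 : 2 ≤ Real.cosh s) :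
    lam * ((Real.cosh s - 1) / 2) ≤
      ((ENNReal.ofReal lam • harea) (psi ⁻¹' Metric.closedBall c s)).toReal := by
  rw [← ENNReal.ofReal_le_iff_le_toReal (mass_ne_top hlam c s), mass_eq, ENNReal.ofReal_mul hlam]
  gcongr
  exact area_lower c hs2 hs

end mass

/-! ### The bad events -/

section bad

variable {Ω : Type*} [MeasurableSpace Ω] {P : Measure Ω} [IsProbabilityMeasure P] {lam : ℝ}
  {S : Ω → Set Disc}

/-- The number of points in the part of the disc corresponding to a closed ball. -/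
noncomputable def cnt (S : Set Disc) (c : ℍ) (s : ℝ) : ℕ∞ :=
  (S ∩ psi ⁻¹' Metric.closedBall c s).encard

lemma measurableSet_ball (c : ℍ) (s : ℝ) : MeasurableSet (psi ⁻¹' Metric.closedBall c s) :=
  measurable_psi Metric.isClosed_closedBall.measurableSet

omit [IsProbabilityMeasure P] in
lemma prob_void_le (hS : IsPoissonProcess P (ENNReal.ofReal lam • harea) S) (hlam : 0 ≤ lam)
    (c : ℍ) {s : ℝ} (hs : 0 ≤ s) (hs2 : 2 ≤ Real.cosh s) :
    P {ω | cnt (S ω) c s = 0} ≤ ENNReal.ofReal (Real.exp (-(lam * ((Real.cosh s - 1) / 2)))) := by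
  refine (hS.void (measurableSet_ball c s) (mass_ne_top hlam c s)).le.trans ?_
  apply ENNReal.ofReal_le_ofReal
  apply Real.exp_le_exp.2
  linarith [le_mass_toReal hlam c hs hs2]

lemma prob_few_le (hS : IsPoissonProcess P (ENNReal.ofReal lam • harea) S) (hlam : 0 ≤ lam)
    (c : ℍ) {s : ℝ} (hs : 0 ≤ s) (k : ℕ) :
    P {ω | (k : ℕ∞) ≤ cnt (S ω) c s} ≤
      ENNReal.ofReal (Real.exp (lam * Real.exp (4 * s)) / 2 ^ k) := by
  refine (hS.tail (measurableSet_ball c s) (mass_ne_top hlam c s) k).trans ?_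
  apply ENNReal.ofReal_le_ofReal
  gcongr
  exact mass_toReal_le hlam c hs

lemma prob_top (hS : IsPoissonProcess P (ENNReal.ofReal lam • harea) S) (hlam : 0 ≤ lam)
    (c : ℍ) (s : ℝ) : P {ω | cnt (S ω) c s = ⊤} = 0 :=
  hS.top (measurableSet_ball c s) (mass_ne_top hlam c s)

/-- The bad event at scale `n`, for the net `F`. -/
def Bad (S : Ω → Set Disc) (F : ℕ → Finset ℍ) (n : ℕ) : Set Ω :=
  ⋃ c ∈ F n, ({ω | cnt (S ω) c ((n : ℝ) / 1000 - 2) = 0} ∪
    {ω | ((⌊Real.exp ((n : ℝ) / 10)⌋₊ + 1 : ℕ) : ℕ∞) ≤ cnt (S ω) c (4 + ((n : ℝ) + 3) / 1000)})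

lemma prob_bad_le (hS : IsPoissonProcess P (ENNReal.ofReal lam • harea) S) (hlam : 0 < lam)
    {F : ℕ → Finset ℍ} (hF : ∀ n, (F n).card ≤ 3 ^ (3 * n + 4)) :
    ∃ C : ℝ, 0 ≤ C ∧ ∀ n : ℕ, 4000 ≤ n → P (Bad S F n) ≤ ENNReal.ofReal (C * Real.exp (-n)) := by
  obtain ⟨C1, hC1, h1⟩ := numeric_void hlam
  obtain ⟨C2, hC2, h2⟩ := numeric_few lam
  refine ⟨C1 + C2, by positivity, fun n hn ↦ ?_⟩
  have hn' : (4000 : ℝ) ≤ n := by exact_mod_cast hn
  have hs : (0 : ℝ) ≤ (n : ℝ) / 1000 - 2 := by linarith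
  have hs2 : 2 ≤ Real.cosh ((n : ℝ) / 1000 - 2) := by
    have h3 := sq_div_two_le_cosh_sub_one ((n : ℝ) / 1000 - 2)
    nlinarith
  set a : ℝ := Real.exp (-(lam * ((Real.cosh (n / 1000 - 2) - 1) / 2))) with ha
  set b : ℝ := Real.exp (lam * Real.exp (4 * (4 + (n + 3) / 1000))) /
      2 ^ (⌊Real.exp ((n : ℝ) / 10)⌋₊ + 1) with hb
  have ha0 : 0 ≤ a := (Real.exp_pos _).le
  have hb0 : 0 ≤ b := by positivity
  have hcard : ((F n).card : ℝ) ≤ 3 ^ (3 * n + 4) := by exact_mod_cast hF n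
  calc P (Bad S F n) ≤ ∑ c ∈ F n, P ({ω | cnt (S ω) c ((n : ℝ) / 1000 - 2) = 0} ∪
        {ω | ((⌊Real.exp ((n : ℝ) / 10)⌋₊ + 1 : ℕ) : ℕ∞) ≤
          cnt (S ω) c (4 + ((n : ℝ) + 3) / 1000)}) := measure_biUnion_finset_le _ _
    _ ≤ ∑ _c ∈ F n, ENNReal.ofReal (a + b) := by
        refine Finset.sum_le_sum fun c _ ↦ (measure_union_le _ _).trans ?_
        rw [ENNReal.ofReal_add ha0 hb0]
        exact add_le_add (prob_void_le hS hlam.le c hs hs2)
          (prob_few_le hS hlam.le c (by positivity) _)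
    _ = ENNReal.ofReal ((F n).card * (a + b)) := by
        rw [Finset.sum_const, nsmul_eq_mul, ENNReal.ofReal_mul (by positivity),
          ENNReal.ofReal_natCast]
    _ ≤ ENNReal.ofReal ((C1 + C2) * Real.exp (-n)) := by
        apply ENNReal.ofReal_le_ofReal
        calc ((F n).card : ℝ) * (a + b) ≤ 3 ^ (3 * n + 4) * (a + b) := by gcongr
          _ = 3 ^ (3 * n + 4) * a + 3 ^ (3 * n + 4) * b := by ring
          _ ≤ C1 * Real.exp (-n) + C2 * Real.exp (-n) := add_le_add (h1 n) (h2 n)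
          _ = _ := by ring

lemma prob_tail_tendsto (hS : IsPoissonProcess P (ENNReal.ofReal lam • harea) S) (hlam : 0 < lam)
    {F : ℕ → Finset ℍ} (hF : ∀ n, (F n).card ≤ 3 ^ (3 * n + 4)) {ε : ℝ≥0∞} (hε : 0 < ε) :
    ∃ N : ℕ, 4000 ≤ N ∧ P (⋃ n : ℕ, Bad S F (n + N)) ≤ ε := by
  obtain ⟨C, hC, h⟩ := prob_bad_le hS hlam hF
  set g : ℕ → ℝ≥0∞ := fun n ↦ ENNReal.ofReal (C * Real.exp (-n)) with hg
  have hsum : ∑' n, g n ≠ ∞ := by
    have : Summable fun n : ℕ ↦ C * Real.exp (-(n : ℝ)) := by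
      apply Summable.mul_left
      have h1 := Real.summable_exp_neg_nat
      exact h1
    exact this.tsum_ofReal_ne_top
  have htend := ENNReal.tendsto_sum_nat_add g hsum
  have hev : ∀ᶠ N in atTop, ∑' k, g (k + N) ≤ ε :=
    (htend.eventually (gt_mem_nhds hε)).mono fun N hN ↦ hN.le
  obtain ⟨N, hN1, hN2⟩ := (hev.and (eventually_ge_atTop 4000)).exists
  refine ⟨N, hN2, ?_⟩
  calc P (⋃ n : ℕ, Bad S F (n + N)) ≤ ∑' n, P (Bad S F (n + N)) := measure_iUnion_le _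
    _ ≤ ∑' n, g (n + N) := by
        gcongr with n
        exact h (n + N) (by omega)
    _ ≤ ε := hN1

omit [MeasurableSpace Ω] in
/-- Deterministic consequence of the absence of bad events. -/
lemma regular_of_not_bad {ω : Ω} {F : ℕ → Finset ℍ}
    (hF : ∀ (n : ℕ) (y : ℍ), dist y I ≤ n + 1 → ∃ c ∈ F n, dist y c ≤ 2)
    (hfin : ∀ n : ℕ, cnt (S ω) I n ≠ ⊤) {N : ℕ} (hbad : ∀ n : ℕ, ω ∉ Bad S F (n + N)) :
    Regular (fun v : S ω ↦ psi v) N := by
  have himg : ∀ (y : ℍ) (r : ℝ), (Subtype.val '' {v : S ω | dist (psi v) y ≤ r} : Set Disc) =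
      S ω ∩ psi ⁻¹' Metric.closedBall y r := by
    intro y r
    ext z
    constructor
    · rintro ⟨v, hv, rfl⟩
      exact ⟨v.2, hv⟩
    · rintro ⟨hz, hz2⟩
      exact ⟨⟨z, hz⟩, hz2, rfl⟩
  have hfin' : ∀ (y : ℍ) (r : ℝ), (S ω ∩ psi ⁻¹' Metric.closedBall y r).Finite := by
    intro y r
    obtain ⟨n, hn⟩ := exists_nat_ge (r + dist y I)
    have h1 : (S ω ∩ psi ⁻¹' Metric.closedBall I n).Finite :=
      Set.encard_ne_top_iff.1 (hfin n)
    refine h1.subset fun z hz ↦ ⟨hz.1, ?_⟩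
    have h2 : dist (psi z) y ≤ r := hz.2
    change dist (psi z) I ≤ n
    linarith [dist_triangle (psi z) y I]
  refine ⟨?_, ?_, ?_⟩
  · intro y r
    have h1 := hfin' y r
    rw [← himg] at h1
    exact h1.of_finite_image Subtype.val_injective.injOn
  · intro y
    set n := ⌊mm N y⌋₊ with hn
    have hm0 : 0 ≤ mm N y := dist_nonneg.trans (le_max_right _ _)
    have h1 : (n : ℝ) ≤ mm N y := Nat.floor_le hm0
    have h2 : mm N y < n + 1 := Nat.lt_floor_add_one _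
    have h3 : N ≤ n := by
      rw [hn]; exact Nat.le_floor (le_max_left _ _)
    obtain ⟨c, hc, hyc⟩ := hF n y ((le_max_right _ _).trans h2.le)
    have h4 := hbad (n - N)
    rw [Nat.sub_add_cancel h3] at h4
    have h5 : cnt (S ω) c ((n : ℝ) / 1000 - 2) ≠ 0 := fun h0 ↦
      h4 (Set.mem_biUnion (Finset.mem_coe.2 hc) (Or.inl h0))
    obtain ⟨z, hz1, hz2⟩ := Set.encard_ne_zero.1 h5
    refine ⟨⟨z, hz1⟩, ?_⟩
    have h6 : dist (psi z) c ≤ (n : ℝ) / 1000 - 2 := hz2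
    have h7 := dist_triangle y c (psi z)
    rw [dist_comm c] at h7
    change dist y (psi z) ≤ _
    linarith
  · intro y
    set n := ⌊mm N y⌋₊ with hn
    have hm0 : 0 ≤ mm N y := dist_nonneg.trans (le_max_right _ _)
    have h1 : (n : ℝ) ≤ mm N y := Nat.floor_le hm0
    have h2 : mm N y < n + 1 := Nat.lt_floor_add_one _
    have h3 : N ≤ n := by
      rw [hn]; exact Nat.le_floor (le_max_left _ _)
    obtain ⟨c, hc, hyc⟩ := hF n y ((le_max_right _ _).trans h2.le)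
    have h4 := hbad (n - N)
    rw [Nat.sub_add_cancel h3] at h4
    have h5 : cnt (S ω) c (4 + ((n : ℝ) + 3) / 1000) < ((⌊Real.exp ((n : ℝ) / 10)⌋₊ + 1 : ℕ) : ℕ∞) := by
      by_contra h0
      push Not at h0
      exact h4 (Set.mem_biUnion (Finset.mem_coe.2 hc) (Or.inr h0))
    have h6 : (S ω ∩ psi ⁻¹' Metric.closedBall c (4 + ((n : ℝ) + 3) / 1000)).ncard ≤
        ⌊Real.exp ((n : ℝ) / 10)⌋₊ := by
      have h7 : cnt (S ω) c (4 + ((n : ℝ) + 3) / 1000) =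
          ((S ω ∩ psi ⁻¹' Metric.closedBall c (4 + ((n : ℝ) + 3) / 1000)).ncard : ℕ∞) :=
        (Set.Finite.cast_ncard_eq (hfin' _ _)).symm
      rw [h7] at h5
      have h8 := (ENat.natCast_lt_natCast).1 h5
      omega
    have h7 : {v : S ω | dist (psi v) y ≤ 2 + (mm N y + 2) / 1000}.ncard ≤
        (S ω ∩ psi ⁻¹' Metric.closedBall c (4 + ((n : ℝ) + 3) / 1000)).ncard := by
      rw [← Set.ncard_image_of_injective _ Subtype.val_injective, himg]
      apply Set.ncard_le_ncard _ (hfin' _ _)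
      rintro z ⟨hz1, hz2⟩
      refine ⟨hz1, ?_⟩
      have h8 : dist (psi z) y ≤ 2 + (mm N y + 2) / 1000 := hz2
      change dist (psi z) c ≤ _
      linarith [dist_triangle (psi z) y c]
    calc (({v : S ω | dist (psi v) y ≤ 2 + (mm N y + 2) / 1000}.ncard : ℕ) : ℝ)
        ≤ (⌊Real.exp ((n : ℝ) / 10)⌋₊ : ℝ) := by exact_mod_cast h7.trans h6
      _ ≤ Real.exp ((n : ℝ) / 10) := Nat.floor_le (Real.exp_pos _).le
      _ ≤ Real.exp (mm N y / 10) := by gcongr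

lemma ae_locFin (hS : IsPoissonProcess P (ENNReal.ofReal lam • harea) S) (hlam : 0 < lam) :
    ∀ᵐ ω ∂P, ∀ n : ℕ, cnt (S ω) I n ≠ ⊤ := by
  rw [ae_all_iff]
  intro n
  have := prob_top hS hlam.le I n
  rw [ae_iff]
  simpa using this

/-- The regularity event has probability close to one. -/
theorem prob_not_regular_le (hS : IsPoissonProcess P (ENNReal.ofReal lam • harea) S)
    (hlam : 0 < lam) {ε : ℝ≥0∞} (hε : 0 < ε) :
    ∃ ρ : ℝ, 300 ≤ ρ ∧ P {ω | ¬ Regular (fun v : S ω ↦ psi v) ρ} ≤ ε := by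
  obtain ⟨F, hF1, hF2⟩ := exists_net
  obtain ⟨N, hN, hP⟩ := prob_tail_tendsto hS hlam hF2 hε
  refine ⟨N, by have : (4000 : ℝ) ≤ N := by exact_mod_cast hN
                linarith, ?_⟩
  have hsub : {ω | ¬ Regular (fun v : S ω ↦ psi v) N} ⊆
      {ω | ¬ ∀ n : ℕ, cnt (S ω) I n ≠ ⊤} ∪ ⋃ n : ℕ, Bad S F (n + N) := by
    intro ω hω
    by_contra h
    rw [Set.mem_union, not_or] at h
    obtain ⟨h1, h2⟩ := h
    rw [Set.mem_ofPred_eq, not_not] at h1
    rw [Set.mem_iUnion, not_exists] at h2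
    exact hω (regular_of_not_bad hF1 h1 h2)
  calc P {ω | ¬ Regular (fun v : S ω ↦ psi v) N}
      ≤ P {ω | ¬ ∀ n : ℕ, cnt (S ω) I n ≠ ⊤} + P (⋃ n : ℕ, Bad S F (n + N)) :=
        (measure_mono hsub).trans (measure_union_le _ _)
    _ ≤ 0 + ε := add_le_add (ae_iff.1 (ae_locFin hS hlam)).le hP
    _ = ε := zero_add _

end bad

end Pool.Agent.Lib.MP_80c3a1_pr
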